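import Pool.Agent.H83.LS.Targets3
import Pool.Agent.H83.LS.Basic

/-!
Basic facts for the modules GB, PC1 of wave 3: the cutoff `chi`, measurability of the
transplantation kernel, a Schur test.
-/

set_option autoImplicit false

namespace Pool.Agent.H57.LS

open Pool.Agent.H83.LS MeasureTheory Set
open scoped ENNReal NNReal

lemma contDiff_eta0 : ContDiff ℝ (⊤ : ℕ∞) eta0 := by
  unfold eta0
  exact Real.smoothTransition.contDiff.comp (contDiff_const.sub contDiff_id)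

lemma contDiff_chi : ContDiff ℝ (⊤ : ℕ∞) chi := by
  unfold chi
  exact contDiff_eta0.sub (contDiff_eta0.comp (contDiff_const.mul contDiff_id))

lemma chi_support {s : ℝ} (h : chi s ≠ 0) : 1 / 2 ≤ s ∧ s ≤ 2 := by
  unfold chi eta0 at h
  constructor
  · by_contra hs
    push Not at hs
    apply h
    rw [Real.smoothTransition.one_of_one_le (by linarith),
      Real.smoothTransition.one_of_one_le (by linarith), sub_self]
  · by_contra hs
    push Not at hs
    apply h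
    rw [Real.smoothTransition.zero_of_nonpos (by linarith),
      Real.smoothTransition.zero_of_nonpos (by linarith), sub_self]

lemma eta0_nonneg (s : ℝ) : 0 ≤ eta0 s := Real.smoothTransition.nonneg _
lemma eta0_le_one (s : ℝ) : eta0 s ≤ 1 := Real.smoothTransition.le_one _

lemma abs_chi_le (s : ℝ) : |chi s| ≤ 1 := by
  unfold chi
  rw [abs_le]
  constructor <;> linarith [eta0_nonneg s, eta0_le_one s, eta0_nonneg (2 * s), eta0_le_one (2 * s)]

/-- smooth compactly supported functions satisfy `CB` -/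
lemma CB_of (χ : ℝ → ℂ) (h1 : ContDiff ℝ (⊤ : ℕ∞) χ) (h2 : ∀ σ, χ σ ≠ 0 → 1 / 8 ≤ σ ∧ σ ≤ 8)
    (M : ℕ) : ∃ B : ℝ, 0 ≤ B ∧ CB M B χ := by
  have hc : HasCompactSupport χ := by
    apply HasCompactSupport.of_support_subset_isCompact (isCompact_Icc (a := (1 / 8 : ℝ)) (b := 8))
    intro σ hσ
    exact h2 σ hσ
  have hb : ∀ k : ℕ, ∃ B : ℝ, ∀ σ, ‖iteratedDeriv k χ σ‖ ≤ B := by
    intro k
    have h3 : Continuous (iteratedFDeriv ℝ k χ) :=
      h1.continuous_iteratedFDeriv (by exact_mod_cast le_top)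
    obtain ⟨B, hB⟩ := h3.bounded_above_of_compact_support (hc.iteratedFDeriv k)
    refine ⟨B, fun σ => ?_⟩
    rw [← norm_iteratedFDeriv_eq_norm_iteratedDeriv]
    exact hB σ
  choose B hB using hb
  refine ⟨∑ k ∈ Finset.range (M + 1), |B k|, Finset.sum_nonneg (fun _ _ => abs_nonneg _), h1, h2, ?_⟩
  intro k hk σ
  refine (hB k σ).trans ((le_abs_self _).trans ?_)
  exact Finset.single_le_sum (f := fun k => |B k|) (fun _ _ => abs_nonneg _)
    (Finset.mem_range.2 (by omega))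

lemma CB_chi (M : ℕ) : ∃ B : ℝ, 0 ≤ B ∧ CB M B (fun σ => ((chi σ : ℝ) : ℂ)) := by
  apply CB_of
  · exact Complex.ofRealCLM.contDiff.comp contDiff_chi
  · intro σ hσ
    have : chi σ ≠ 0 := by
      intro h; apply hσ; simp [h]
    have := chi_support this
    constructor <;> linarith

lemma continuous_jn (m : ℕ) : Continuous (jn m) := by
  unfold jn
  apply intervalIntegral.continuous_parametric_intervalIntegral_of_continuous'
  fun_prop

lemma measurable_bj (m : ℕ) : Measurable (bj m) := by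
  unfold bj
  exact (measurable_id.pow_const _).mul (continuous_jn m).measurable

/-- joint measurability of the transplantation kernel -/
lemma measurable_kp (m : ℕ) (χ : ℝ → ℂ) (hχ : Measurable χ) :
    Measurable (fun p : ℝ × ℝ => kp m χ p.1 p.2) := by
  unfold kp
  have : StronglyMeasurable (fun p : ℝ × ℝ =>
      ∫ σ in Ioi (0 : ℝ), e (p.1 * σ) * χ σ * ((bj m (p.2 * σ) : ℝ) : ℂ)) := by
    apply StronglyMeasurable.integral_prod_right
      (f := fun (p : ℝ × ℝ) (σ : ℝ) => e (p.1 * σ) * χ σ * ((bj m (p.2 * σ) : ℝ) : ℂ))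
    apply Measurable.stronglyMeasurable
    apply Measurable.mul
    · apply Measurable.mul
      · exact measurable_e.comp (by fun_prop)
      · exact hχ.comp measurable_snd
    · exact Complex.measurable_ofReal.comp ((measurable_bj m).comp (by fun_prop))
  exact this.measurable

/-- the Cauchy kernel at scale `1/L` -/
noncomputable def ck (L : ℝ) (u : ℝ) : ℝ≥0∞ := ENNReal.ofReal (L * (1 + (L * u) ^ 2)⁻¹)

lemma measurable_ck (L : ℝ) : Measurable (ck L) := by
  unfold ck; fun_prop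

lemma lintegral_ck (L : ℝ) (hL : 0 < L) : ∫⁻ u, ck L u = ENNReal.ofReal Real.pi := by
  unfold ck
  have h1 : Integrable (fun u : ℝ => L * (1 + (L * u) ^ 2)⁻¹) := by
    apply Integrable.const_mul
    exact integrable_inv_one_add_sq.comp_mul_left' hL.ne'
  rw [← ofReal_integral_eq_lintegral_ofReal h1 (Filter.Eventually.of_forall (fun u => by positivity))]
  congr 1
  rw [integral_const_mul, Measure.integral_comp_mul_left (fun y : ℝ => (1 + y ^ 2)⁻¹) L,
    integral_univ_inv_one_add_sq, abs_of_pos (inv_pos.2 hL), smul_eq_mul]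
  field_simp

/-- Schur test -/
lemma schur (hY : T_YG) (κ : ℝ → ℝ≥0∞) (H : ℝ × ℝ → ℝ≥0∞) (p : ℝ) (hp : 1 ≤ p) (hκ : Measurable κ)
    (hκI : ∫⁻ u, κ u ≠ ⊤) (hH : Measurable H) :
    ∫⁻ x : ℝ × ℝ, (∫⁻ ρ : ℝ, (κ (x.1 - ρ) + κ (x.1 + ρ)) * H (ρ, x.2)) ^ p ≤
      2 ^ p * ((∫⁻ u, κ u) ^ p * ∫⁻ y, H y ^ p) := by
  have hm : Measurable (fun x : ℝ × ℝ => (∫⁻ ρ : ℝ, (κ (x.1 - ρ) + κ (x.1 + ρ)) * H (ρ, x.2)) ^ p) := by
    apply Measurable.pow_const
    apply Measurable.lintegral_prod_right' (f := fun q : (ℝ × ℝ) × ℝ =>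
      (κ (q.1.1 - q.2) + κ (q.1.1 + q.2)) * H (q.2, q.1.2))
    fun_prop
  rw [Measure.volume_eq_prod, lintegral_prod_symm _ hm.aemeasurable, ← Measure.volume_eq_prod,
    Measure.volume_eq_prod, lintegral_prod_symm _ (hH.pow_const p).aemeasurable,
    ← lintegral_const_mul' _ _ ?_, ← lintegral_const_mul' _ _ ?_]
  · apply lintegral_mono
    intro z
    show ∫⁻ x : ℝ, (∫⁻ ρ : ℝ, (κ (x - ρ) + κ (x + ρ)) * H (ρ, z)) ^ p ≤
      2 ^ p * ((∫⁻ u, κ u) ^ p * ∫⁻ x, H (x, z) ^ p)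
    have h1 : Measurable (fun ρ => H (ρ, z)) := by fun_prop
    have e1 := hY ℝ volume κ (fun ρ => H (ρ, z)) p hκ h1 hp
    have e2 := hY ℝ volume κ (fun ρ => H (-ρ, z)) p hκ (by fun_prop) hp
    have e3 : ∫⁻ y, H (-y, z) ^ p = ∫⁻ y, H (y, z) ^ p := by
      have := lintegral_neg_eq_self (fun y : ℝ => H (y, z) ^ p) (μ := volume)
      exact this
    have e4 : ∀ x : ℝ, ∫⁻ ρ, κ (x - ρ) * H (-ρ, z) = ∫⁻ ρ, κ (x + ρ) * H (ρ, z) := by
      intro x
      have := lintegral_neg_eq_self (fun ρ : ℝ => κ (x + ρ) * H (ρ, z)) (μ := volume)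
      simpa [sub_eq_add_neg] using this
    simp only [e4] at e2
    rw [e3] at e2
    calc ∫⁻ x : ℝ, (∫⁻ ρ : ℝ, (κ (x - ρ) + κ (x + ρ)) * H (ρ, z)) ^ p
        ≤ ∫⁻ x : ℝ, 2 ^ (p - 1) * ((∫⁻ ρ : ℝ, κ (x - ρ) * H (ρ, z)) ^ p +
            (∫⁻ ρ : ℝ, κ (x + ρ) * H (ρ, z)) ^ p) := by
          apply lintegral_mono
          intro x
          show (∫⁻ ρ : ℝ, (κ (x - ρ) + κ (x + ρ)) * H (ρ, z)) ^ p ≤ _
          have : ∫⁻ ρ : ℝ, (κ (x - ρ) + κ (x + ρ)) * H (ρ, z) =
              (∫⁻ ρ : ℝ, κ (x - ρ) * H (ρ, z)) + ∫⁻ ρ : ℝ, κ (x + ρ) * H (ρ, z) := by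
            rw [← lintegral_add_left (by fun_prop)]
            simp only [add_mul]
          rw [this]
          exact ENNReal.rpow_add_le_mul_rpow_add_rpow _ _ hp
      _ = 2 ^ (p - 1) * ((∫⁻ x : ℝ, (∫⁻ ρ : ℝ, κ (x - ρ) * H (ρ, z)) ^ p) +
            ∫⁻ x : ℝ, (∫⁻ ρ : ℝ, κ (x + ρ) * H (ρ, z)) ^ p) := by
          rw [lintegral_const_mul' _ _ (ENNReal.rpow_ne_top_of_nonneg (by linarith) (by norm_num)),
            lintegral_add_left]
          apply Measurable.pow_const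
          apply Measurable.lintegral_prod_right' (f := fun q : ℝ × ℝ =>
            κ (q.1 - q.2) * H (q.2, z))
          fun_prop
      _ ≤ 2 ^ (p - 1) * (((∫⁻ u, κ u) ^ p * ∫⁻ y, H (y, z) ^ p) +
            ((∫⁻ u, κ u) ^ p * ∫⁻ y, H (y, z) ^ p)) := by gcongr
      _ = 2 ^ p * ((∫⁻ u, κ u) ^ p * ∫⁻ x, H (x, z) ^ p) := by
          rw [← two_mul, ← mul_assoc]
          congr 1
          calc (2 : ℝ≥0∞) ^ (p - 1) * 2 = 2 ^ (p - 1) * 2 ^ (1 : ℝ) := by rw [ENNReal.rpow_one]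
            _ = 2 ^ p := by
              rw [← ENNReal.rpow_add _ _ (by norm_num) (by norm_num)]
              congr 1; ring
  all_goals first
    | exact ENNReal.rpow_ne_top_of_nonneg (by linarith) hκI
    | exact ENNReal.rpow_ne_top_of_nonneg (by linarith) (by norm_num)

end Pool.Agent.H57.LS
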