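import Pool.Agent.H57.LS.GBase

/-!
Module PC1: weighted piece, data in a shell `D ≤ ρ ≤ 2D`.
-/

set_option autoImplicit false

namespace Pool.Agent.H57.LS

open Pool.Agent.H83.LS MeasureTheory Set
open scoped ENNReal NNReal

lemma contDiff_chis : ContDiff ℝ (⊤ : ℕ∞) chis := by
  unfold chis
  exact (contDiff_eta0.comp (contDiff_id.div_const _)).sub
    (contDiff_eta0.comp (contDiff_const.mul contDiff_id))

lemma chis_support {s : ℝ} (h : chis s ≠ 0) : 1 / 4 ≤ s ∧ s ≤ 4 := by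
  unfold chis eta0 at h
  constructor
  · by_contra hs
    push Not at hs
    apply h
    rw [Real.smoothTransition.one_of_one_le (by linarith),
      Real.smoothTransition.one_of_one_le (by linarith), sub_self]
  · by_contra hs
    push Not at hs
    apply h
    rw [Real.smoothTransition.zero_of_nonpos (by linarith),
      Real.smoothTransition.zero_of_nonpos (by linarith), sub_self]

lemma CB_chis (M : ℕ) : ∃ B : ℝ, 0 ≤ B ∧ CB M B (fun σ => ((chis σ : ℝ) : ℂ)) := by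
  apply CB_of
  · exact Complex.ofRealCLM.contDiff.comp contDiff_chis
  · intro σ hσ
    have : chis σ ≠ 0 := by
      intro h; apply hσ; simp [h]
    have := chis_support this
    constructor <;> linarith

lemma measurable_KK (lam Lam : ℝ) :
    Measurable (fun q : ℝ × (ℝ × ℝ) => KK q.1 lam Lam q.2) := by
  unfold KK
  have hchi : Measurable chi := contDiff_chi.continuous.measurable
  have hchis : Measurable chis := contDiff_chis.continuous.measurable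
  have : StronglyMeasurable (fun q : ℝ × (ℝ × ℝ) =>
      ∫ ξ : ℝ × ℝ, e (q.2.1 * ξ.1 + q.2.2 * ξ.2 + q.1 * Real.sqrt (ξ.1 ^ 2 + ξ.2 ^ 2)) *
    ((chi (Real.sqrt (ξ.1 ^ 2 + ξ.2 ^ 2) / lam) * chis (ξ.1 / Lam) : ℝ) : ℂ)) := by
    apply StronglyMeasurable.integral_prod_right
      (f := fun (q : ℝ × (ℝ × ℝ)) (ξ : ℝ × ℝ) =>
        e (q.2.1 * ξ.1 + q.2.2 * ξ.2 + q.1 * Real.sqrt (ξ.1 ^ 2 + ξ.2 ^ 2)) *
          ((chi (Real.sqrt (ξ.1 ^ 2 + ξ.2 ^ 2) / lam) * chis (ξ.1 / Lam) : ℝ) : ℂ))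
    apply Measurable.stronglyMeasurable
    apply Measurable.mul
    · exact measurable_e.comp (by fun_prop)
    · apply Complex.measurable_ofReal.comp
      exact (hchi.comp (by fun_prop)).mul (hchis.comp (by fun_prop))
  exact this.measurable

lemma measurable_cvKK (lam Lam : ℝ) (G : ℝ × ℝ → ℂ) (hG : Measurable G) :
    Measurable (fun q : ℝ × (ℝ × ℝ) => cv (KK q.1 lam Lam) G q.2) := by
  unfold cv
  have : StronglyMeasurable (fun q : ℝ × (ℝ × ℝ) => ∫ y, KK q.1 lam Lam (q.2 - y) * G y) := by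
    apply StronglyMeasurable.integral_prod_right
      (f := fun (q : ℝ × (ℝ × ℝ)) (y : ℝ × ℝ) => KK q.1 lam Lam (q.2 - y) * G y)
    apply Measurable.stronglyMeasurable
    apply Measurable.mul
    · exact (measurable_KK lam Lam).comp
        (f := fun r : (ℝ × (ℝ × ℝ)) × (ℝ × ℝ) => (r.1.1, r.1.2 - r.2)) (by fun_prop)
    · exact hG.comp measurable_snd
  exact this.measurable

/-- Young for `cv` -/
lemma cv_young (hY : T_YG) (K g : ℝ × ℝ → ℂ) (S : Set (ℝ × ℝ)) (hS : MeasurableSet S)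
    (k : ℝ × ℝ → ℝ≥0∞) (hk : Measurable k) (hg : Measurable g)
    (p : ℝ) (hp : 1 ≤ p) (hb : ∀ x ∈ S, ∀ y, g y ≠ 0 → ‖K (x - y)‖ₑ ≤ k (x - y)) :
    ∫⁻ x in S, ‖cv K g x‖ₑ ^ p ≤ (∫⁻ y, k y) ^ p * ∫⁻ y, ‖g y‖ₑ ^ p := by
  calc ∫⁻ x in S, ‖cv K g x‖ₑ ^ p
      ≤ ∫⁻ x in S, (∫⁻ y, k (x - y) * ‖g y‖ₑ) ^ p := by
        apply setLIntegral_mono' hS
        intro x hx
        apply ENNReal.rpow_le_rpow _ (by linarith)
        unfold cv
        refine (enorm_integral_le_lintegral_enorm _).trans ?_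
        apply lintegral_mono
        intro y
        show ‖K (x - y) * g y‖ₑ ≤ k (x - y) * ‖g y‖ₑ
        rw [enorm_mul]
        by_cases h : g y = 0
        · rw [h]; simp
        · gcongr
          exact hb x hx y h
    _ ≤ ∫⁻ x, (∫⁻ y, k (x - y) * ‖g y‖ₑ) ^ p := setLIntegral_le_lintegral _ _
    _ ≤ _ := hY (ℝ × ℝ) volume k (fun y => ‖g y‖ₑ) p hk hg.enorm hp

lemma lp_le_l2 (g : ℝ × ℝ → ℂ) (M p : ℝ) (hp : 2 ≤ p) (hM : ∀ y, ‖g y‖ ≤ M) (hM0 : 0 ≤ M) :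
    ∫⁻ y, ‖g y‖ₑ ^ p ≤ ENNReal.ofReal (M ^ (p - 2)) * ∫⁻ y, ‖g y‖ₑ ^ 2 := by
  rw [← lintegral_const_mul' _ _ ENNReal.ofReal_ne_top]
  apply lintegral_mono
  intro y
  show ‖g y‖ₑ ^ p ≤ ENNReal.ofReal (M ^ (p - 2)) * ‖g y‖ₑ ^ 2
  have h1 : ‖g y‖ₑ ^ p = ‖g y‖ₑ ^ (p - 2) * ‖g y‖ₑ ^ (2 : ℕ) := by
    rw [← ENNReal.rpow_natCast, ← ENNReal.rpow_add_of_nonneg _ _ (by linarith) (by norm_num)]
    congr 1; norm_num
  rw [h1]
  gcongr
  rw [← ENNReal.ofReal_rpow_of_nonneg hM0 (by linarith)]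
  apply ENNReal.rpow_le_rpow _ (by linarith)
  rw [← ofReal_norm]
  exact ENNReal.ofReal_le_ofReal (hM y)

/-- step 1: reduction to a weighted estimate in the plane -/
lemma red_weight (hR : T_RED2) (hW : T_WRED) (hK : T_KAP) (n : ℕ) (hn : 2 ≤ n) (p β : ℝ)
    (hp : 1 ≤ p) (hβ : 0 ≤ β) (hβ1 : β < 1) : ∃ C : ℝ≥0, ∀ (lam Lam A t : ℝ) (F : ℝ × ℝ → ℂ),
    0 < lam → 0 < Lam → PF A F → Measurable (GG n Lam F) →
    ∫⁻ z : ℝ, ∫⁻ r in Ioi (0 : ℝ),
      ‖PU n lam Lam t F (r, z)‖ₑ ^ p * ENNReal.ofReal (r ^ (-β)) ≤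
    C * ∫⁻ x : ℝ × ℝ, ‖cv (KK t lam Lam) (GG n Lam F) x‖ₑ ^ p *
      ENNReal.ofReal ((|x.1| + 1 / Lam) ^ (-β)) := by
  obtain ⟨M, CK, hCK⟩ := hK n 4 hn
  obtain ⟨B, hB0, hB⟩ := CB_chis M
  obtain ⟨CW, hCW⟩ := hW p β hp hβ hβ1
  set c : ℝ := |CK| * B with hc
  have hc0 : 0 ≤ c := by positivity
  refine ⟨(Real.toNNReal c) ^ p * CW, ?_⟩
  intro lam Lam A t F hlam hLam hF hGm
  set V : ℝ × ℝ → ℝ≥0∞ := fun x => ‖cv (KK t lam Lam) (GG n Lam F) x‖ₑ with hV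
  have hVm : Measurable V := by
    exact ((measurable_cvKK lam Lam _ hGm).comp
      (f := fun x : ℝ × ℝ => (t, x)) (by fun_prop)).enorm
  have h1 := hCW Lam V hLam hVm
  have h2 : ∀ z r : ℝ, 0 < r → ‖PU n lam Lam t F (r, z)‖ₑ ≤ ENNReal.ofReal c *
      ∫⁻ x₁ : ℝ, ENNReal.ofReal
      (Lam * (((1 + |Lam * x₁ - Lam * r|) ^ 4)⁻¹ + ((1 + |Lam * x₁ + Lam * r|) ^ 4)⁻¹)) *
      V (x₁, z) := by
    intro z r hr
    rw [hR n lam Lam t A F hn hlam hLam hF r z hr, ← lintegral_const_mul' _ _ ENNReal.ofReal_ne_top]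
    refine (enorm_integral_le_lintegral_enorm _).trans ?_
    apply lintegral_mono
    intro x₁
    show ‖(starRingEnd ℂ) (((Lam : ℝ) : ℂ) * kp n (fun σ => ((chis σ : ℝ) : ℂ)) (Lam * x₁) (Lam * r)) *
      cv (KK t lam Lam) (GG n Lam F) (x₁, z)‖ₑ ≤ ENNReal.ofReal c * (ENNReal.ofReal
      (Lam * (((1 + |Lam * x₁ - Lam * r|) ^ 4)⁻¹ + ((1 + |Lam * x₁ + Lam * r|) ^ 4)⁻¹)) *
      V (x₁, z))
    rw [enorm_mul, ← mul_assoc]
    gcongr
    rw [← ENNReal.ofReal_mul hc0, ← ofReal_norm]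
    apply ENNReal.ofReal_le_ofReal
    rw [RCLike.norm_conj, norm_mul, Complex.norm_real, Real.norm_of_nonneg hLam.le]
    have h3 := hCK _ B (Lam * x₁) (Lam * r) hB (by positivity)
    have h4 : CK * B ≤ c := mul_le_mul_of_nonneg_right (le_abs_self CK) hB0
    calc Lam * ‖kp n (fun σ => ((chis σ : ℝ) : ℂ)) (Lam * x₁) (Lam * r)‖
        ≤ Lam * (CK * B * (((1 + |Lam * x₁ - Lam * r|) ^ 4)⁻¹ +
          ((1 + |Lam * x₁ + Lam * r|) ^ 4)⁻¹)) := by gcongr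
      _ ≤ Lam * (c * (((1 + |Lam * x₁ - Lam * r|) ^ 4)⁻¹ +
          ((1 + |Lam * x₁ + Lam * r|) ^ 4)⁻¹)) := by gcongr
      _ = _ := by ring
  have hct : ENNReal.ofReal c ^ p ≠ ⊤ := ENNReal.rpow_ne_top_of_nonneg (by linarith) ENNReal.ofReal_ne_top
  calc ∫⁻ z : ℝ, ∫⁻ r in Ioi (0 : ℝ),
      ‖PU n lam Lam t F (r, z)‖ₑ ^ p * ENNReal.ofReal (r ^ (-β))
      ≤ ∫⁻ z : ℝ, ∫⁻ r in Ioi (0 : ℝ), ENNReal.ofReal c ^ p * ((∫⁻ x₁ : ℝ, ENNReal.ofReal
      (Lam * (((1 + |Lam * x₁ - Lam * r|) ^ 4)⁻¹ + ((1 + |Lam * x₁ + Lam * r|) ^ 4)⁻¹)) *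
      V (x₁, z)) ^ p * ENNReal.ofReal (r ^ (-β))) := by
        apply lintegral_mono
        intro z
        apply setLIntegral_mono' measurableSet_Ioi
        intro r hr
        rw [← mul_assoc, ← ENNReal.mul_rpow_of_nonneg _ _ (by linarith)]
        gcongr
        exact h2 z r hr
    _ = ENNReal.ofReal c ^ p * ∫⁻ z : ℝ, ∫⁻ r in Ioi (0 : ℝ), ((∫⁻ x₁ : ℝ, ENNReal.ofReal
      (Lam * (((1 + |Lam * x₁ - Lam * r|) ^ 4)⁻¹ + ((1 + |Lam * x₁ + Lam * r|) ^ 4)⁻¹)) *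
      V (x₁, z)) ^ p * ENNReal.ofReal (r ^ (-β))) := by
        rw [← lintegral_const_mul' _ _ hct]
        congr 1
        funext z
        rw [lintegral_const_mul' _ _ hct]
    _ ≤ ENNReal.ofReal c ^ p * (CW * ∫⁻ x : ℝ × ℝ, V x ^ p *
        ENNReal.ofReal ((|x.1| + 1 / Lam) ^ (-β))) := by gcongr
    _ = _ := by
        rw [← mul_assoc]
        congr 1
        rw [ENNReal.coe_mul, ENNReal.coe_rpow_of_nonneg _ (by linarith)]
        rfl

/-- Young with a splitting -/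
lemma cv_young2 (hY : T_YG) (K g : ℝ × ℝ → ℂ) (S : Set (ℝ × ℝ)) (hS : MeasurableSet S)
    (k₁ k₂ h₁ h₂ : ℝ × ℝ → ℝ≥0∞) (hk₁ : Measurable k₁) (hk₂ : Measurable k₂)
    (hh₁ : Measurable h₁) (hh₂ : Measurable h₂) (p : ℝ) (hp : 1 ≤ p)
    (hb : ∀ x ∈ S, ∀ y, ‖K (x - y)‖ₑ * ‖g y‖ₑ ≤ k₁ (x - y) * h₁ y + k₂ (x - y) * h₂ y) :
    ∫⁻ x in S, ‖cv K g x‖ₑ ^ p ≤ 2 ^ (p - 1) * ((∫⁻ y, k₁ y) ^ p * (∫⁻ y, h₁ y ^ p) +
      (∫⁻ y, k₂ y) ^ p * (∫⁻ y, h₂ y ^ p)) := by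
  have e1 := hY (ℝ × ℝ) volume k₁ h₁ p hk₁ hh₁ hp
  have e2 := hY (ℝ × ℝ) volume k₂ h₂ p hk₂ hh₂ hp
  have h2t : (2 : ℝ≥0∞) ^ (p - 1) ≠ ⊤ := ENNReal.rpow_ne_top_of_nonneg (by linarith) (by norm_num)
  have hm1 : Measurable (fun q : (ℝ × ℝ) × (ℝ × ℝ) => k₁ (q.1 - q.2) * h₁ q.2) := by fun_prop
  calc ∫⁻ x in S, ‖cv K g x‖ₑ ^ p
      ≤ ∫⁻ x in S, 2 ^ (p - 1) * ((∫⁻ y, k₁ (x - y) * h₁ y) ^ p +
          (∫⁻ y, k₂ (x - y) * h₂ y) ^ p) := by
        apply setLIntegral_mono' hS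
        intro x hx
        refine le_trans (ENNReal.rpow_le_rpow ?_ (by linarith))
          (ENNReal.rpow_add_le_mul_rpow_add_rpow _ _ hp)
        unfold cv
        refine (enorm_integral_le_lintegral_enorm _).trans ?_
        rw [← lintegral_add_left (by fun_prop)]
        apply lintegral_mono
        intro y
        show ‖K (x - y) * g y‖ₑ ≤ k₁ (x - y) * h₁ y + k₂ (x - y) * h₂ y
        rw [enorm_mul]
        exact hb x hx y
    _ ≤ ∫⁻ x, 2 ^ (p - 1) * ((∫⁻ y, k₁ (x - y) * h₁ y) ^ p +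
          (∫⁻ y, k₂ (x - y) * h₂ y) ^ p) := setLIntegral_le_lintegral _ _
    _ = 2 ^ (p - 1) * ((∫⁻ x, (∫⁻ y, k₁ (x - y) * h₁ y) ^ p) +
          ∫⁻ x, (∫⁻ y, k₂ (x - y) * h₂ y) ^ p) := by
        rw [lintegral_const_mul' _ _ h2t, lintegral_add_left]
        exact hm1.lintegral_prod_right'.pow_const p
    _ ≤ _ := by gcongr

lemma lp_le_l2' (g : ℝ × ℝ → ℂ) (S : Set (ℝ × ℝ)) (hS : MeasurableSet S) (M p : ℝ) (hp : 2 ≤ p)
    (hM : ∀ y ∈ S, ‖g y‖ ≤ M) (hM0 : 0 ≤ M) :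
    ∫⁻ y in S, ‖g y‖ₑ ^ p ≤ ENNReal.ofReal (M ^ (p - 2)) * ∫⁻ y in S, ‖g y‖ₑ ^ 2 := by
  rw [← lintegral_const_mul' _ _ ENNReal.ofReal_ne_top]
  apply setLIntegral_mono' hS
  intro y hy
  have h1 : ‖g y‖ₑ ^ p = ‖g y‖ₑ ^ (p - 2) * ‖g y‖ₑ ^ (2 : ℕ) := by
    rw [← ENNReal.rpow_natCast, ← ENNReal.rpow_add_of_nonneg _ _ (by linarith) (by norm_num)]
    congr 1; norm_num
  rw [h1]
  gcongr
  rw [← ENNReal.ofReal_rpow_of_nonneg hM0 (by linarith)]
  apply ENNReal.rpow_le_rpow _ (by linarith)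
  rw [← ofReal_norm]
  exact ENNReal.ofReal_le_ofReal (hM y hy)

/-- the estimates of S2D for `GG` -/
lemma slab_bounds (hG : T_GB) (hS : T_S2D) (n : ℕ) (hn : 2 ≤ n) (p η : ℝ) (hp : 2 < p)
    (hp3 : p ≤ 3) (hη : 0 < η) : ∃ C : ℝ, 0 ≤ C ∧ ∀ (lam Lam A : ℝ) (F : ℝ × ℝ → ℂ), 1 ≤ lam →
    0 < Lam → Lam ≤ 4 * lam → PF A F →
    (∫⁻ t in Icc (1 : ℝ) 2, ∫⁻ x, ‖cv (KK t lam Lam) (GG n Lam F) x‖ₑ ^ p ≤
      ENNReal.ofReal (C * (lam ^ η * A ^ (p - 2))) * ∫⁻ y, ‖F y‖ₑ ^ 2) ∧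
    (∀ δ : ℝ, 0 < δ →
      ∫⁻ t in Icc (1 : ℝ) 2, ∫⁻ x in {x : ℝ × ℝ | |x.1| ≤ δ},
        ‖cv (KK t lam Lam) (GG n Lam F) x‖ₑ ^ p ≤
      ENNReal.ofReal (C * (lam ^ η * (δ * lam / Lam) ^ (2 - p / 2) * A ^ (p - 2))) *
        ∫⁻ y, ‖F y‖ₑ ^ 2) := by
  obtain ⟨CG, hCG0, hCG⟩ := (hG n hn).1
  obtain ⟨CS, hCS⟩ := hS p η hp hp3 hη
  refine ⟨CS * CG ^ (p - 2) * CG, by positivity, ?_⟩
  intro lam Lam A F hlam hLam hLl hF
  have hA : 0 ≤ A := (norm_nonneg _).trans (hF.2.1 0)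
  obtain ⟨h1, h2, h3, h4⟩ := hCG Lam A F hLam hF
  obtain ⟨h5, h6⟩ := hCS lam Lam (GG n Lam F) (CG * A) hlam hLam hLl h1 h2 h3
  have hlam0 : 0 < lam := by linarith
  have key : ∀ q : ℝ, 0 ≤ q → (CS : ℝ≥0∞) * ENNReal.ofReal (q * (CG * A) ^ (p - 2)) *
      ∫⁻ y, ‖GG n Lam F y‖ₑ ^ 2 ≤ ENNReal.ofReal (CS * CG ^ (p - 2) * CG * (q * A ^ (p - 2))) *
        ∫⁻ y, ‖F y‖ₑ ^ 2 := by
    intro q hq
    calc (CS : ℝ≥0∞) * ENNReal.ofReal (q * (CG * A) ^ (p - 2)) * ∫⁻ y, ‖GG n Lam F y‖ₑ ^ 2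
        ≤ (CS : ℝ≥0∞) * ENNReal.ofReal (q * (CG * A) ^ (p - 2)) *
            (ENNReal.ofReal CG * ∫⁻ y, ‖F y‖ₑ ^ 2) := by gcongr
      _ = ENNReal.ofReal (CS * (q * (CG * A) ^ (p - 2)) * CG) * ∫⁻ y, ‖F y‖ₑ ^ 2 := by
          rw [← mul_assoc, ENNReal.ofReal_mul (p := (CS : ℝ) * (q * (CG * A) ^ (p - 2))) (by positivity),
            ENNReal.ofReal_mul (p := (CS : ℝ)) (by positivity), ENNReal.ofReal_coe_nnreal]
      _ = _ := by
          congr 2
          rw [Real.mul_rpow hCG0 hA]; ring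
  refine ⟨h5.trans (key _ (by positivity)), ?_⟩
  intro δ hδ
  exact (h6 δ hδ).trans (key _ (by positivity))

lemma measurableSet_slab (δ : ℝ) : MeasurableSet {x : ℝ × ℝ | |x.1| ≤ δ} :=
  measurableSet_le (by fun_prop) (by fun_prop)

/-- the far part, case (ii)(b), at a fixed time -/
lemma far_bound (hG : T_GB) (hKL : T_KL1) (hY : T_YG) (n : ℕ) (hn : 2 ≤ n) (p η : ℝ) (hp : 2 < p)
    (hp3 : p ≤ 3) (hη : 0 < η) : ∃ C : ℝ, 0 ≤ C ∧ ∀ (lam Lam A D δ t : ℝ) (F : ℝ × ℝ → ℂ), 1 ≤ lam →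
    0 < Lam → Lam ≤ 4 * lam → 0 < D → 4 * lam ^ η ≤ Lam * D → 16000 * Lam ≤ D * lam → 0 ≤ t → t ≤ 2 →
    δ ≤ D / 16 → PF A F → (∀ y, F y ≠ 0 → D ≤ y.1) →
    ∫⁻ x in {x : ℝ × ℝ | |x.1| ≤ δ}, ‖cv (KK t lam Lam) (GG n Lam F) x‖ₑ ^ p ≤
      ENNReal.ofReal (C * (lam⁻¹ * A ^ (p - 2))) * ∫⁻ y, ‖F y‖ₑ ^ 2 := by
  obtain ⟨N, hN⟩ := exists_nat_ge (5 / η)
  have hN' : 5 ≤ N * η := by
    rw [div_le_iff₀ hη] at hN; exact hN
  obtain ⟨CG, hCG0, hCG⟩ := (hG n hn).1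
  obtain ⟨CN, hCN0, hCN⟩ := (hG n hn).2 N
  obtain ⟨C1, hC1⟩ := hKL.1
  obtain ⟨C2, hC2⟩ := hKL.2 N
  refine ⟨2 ^ (p - 1) * ((C1 : ℝ) ^ p * CN ^ (p - 2) * CN + (C2 : ℝ) ^ p * CG ^ (p - 2) * CG),
    by positivity, ?_⟩
  intro lam Lam A D δ t F hlam hLam hLl hD hLD hal ht0 ht2 hδ hF hFD
  have hA : 0 ≤ A := (norm_nonneg _).trans (hF.2.1 0)
  have hlam0 : 0 < lam := by linarith
  have hlη : 1 ≤ lam ^ η := Real.one_le_rpow hlam hη.le
  have hLD1 : 1 ≤ Lam * D := by linarith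
  obtain ⟨g1, g2, g3, g4⟩ := hCG Lam A F hLam hF
  obtain ⟨g5, g6⟩ := hCN Lam A D F hLam hLD1 hF hFD
  have hKm : Measurable (KK t lam Lam) :=
    (measurable_KK lam Lam).comp (f := fun x : ℝ × ℝ => (t, x)) (by fun_prop)
  set S' : Set (ℝ × ℝ) := {x : ℝ × ℝ | |x.1| ≤ D / 2} with hS'
  have hS'm : MeasurableSet S' := measurableSet_slab _
  set T : Set (ℝ × ℝ) := {x : ℝ × ℝ | D / 4 ≤ |x.1|} with hT
  have hTm : MeasurableSet T := measurableSet_le (by fun_prop) (by fun_prop)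
  have hmain := cv_young2 hY (KK t lam Lam) (GG n Lam F) {x : ℝ × ℝ | |x.1| ≤ δ}
    (measurableSet_slab δ) (fun x => ‖KK t lam Lam x‖ₑ) (T.indicator (fun x => ‖KK t lam Lam x‖ₑ))
    (S'.indicator (fun y => ‖GG n Lam F y‖ₑ)) (fun y => ‖GG n Lam F y‖ₑ) hKm.enorm
    (hKm.enorm.indicator hTm) (g1.enorm.indicator hS'm) g1.enorm p (by linarith) ?_
  swap
  · intro x hx y
    rw [mem_ofPred_eq] at hx
    by_cases hy : y ∈ S'
    · rw [indicator_of_mem hy]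
      exact le_self_add
    · have h1 : D / 2 < |y.1| := by
        rw [hS', mem_ofPred_eq, not_le] at hy; exact hy
      have h2 : x - y ∈ T := by
        rw [hT, mem_ofPred_eq, Prod.fst_sub]
        have := abs_sub_abs_le_abs_sub y.1 x.1
        rw [abs_sub_comm] at this
        linarith
      rw [indicator_of_mem h2]
      exact le_add_self
  -- L¹ norms
  have k1 : ∫⁻ x, ‖KK t lam Lam x‖ₑ ≤ ENNReal.ofReal (C1 * lam ^ (1 / 2 : ℝ)) := by
    refine (hC1 lam Lam t hlam hLam hLl ht0 ht2).trans (le_of_eq ?_)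
    rw [ENNReal.ofReal_mul (by positivity), ENNReal.ofReal_coe_nnreal, Real.sqrt_eq_rpow]
  have hmin : lam ^ (η / 2) ≤ min (Real.sqrt lam) Lam * (D / 4) := by
    have h0 : lam ^ (η / 2) ≤ lam ^ η :=
      Real.rpow_le_rpow_of_exponent_le hlam (by linarith)
    rcases min_choice (Real.sqrt lam) Lam with h | h
    · rw [h]
      have h1 : (lam ^ (η / 2)) ^ 2 ≤ (Real.sqrt lam * (D / 4)) ^ 2 := by
        rw [mul_pow, Real.sq_sqrt hlam0.le, ← Real.rpow_natCast, ← Real.rpow_mul hlam0.le]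
        have : η / 2 * ((2 : ℕ) : ℝ) = η := by push_cast; ring
        rw [this]
        have h2 : D * (16000 * Lam) ≤ D * (D * lam) := by gcongr
        nlinarith
      exact (pow_le_pow_iff_left₀ (by positivity) (by positivity) two_ne_zero).1 h1
    · rw [h]
      linarith
  have hmin1 : 1 ≤ min (Real.sqrt lam) Lam * (D / 4) :=
    (Real.one_le_rpow hlam (by positivity)).trans hmin
  have k2 : ∫⁻ x, T.indicator (fun x => ‖KK t lam Lam x‖ₑ) x ≤
      ENNReal.ofReal (C2 * lam ^ (-(1 / 2) : ℝ)) := by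
    rw [lintegral_indicator hTm]
    refine (hC2 lam Lam t (D / 4) hlam hLam hLl ht0 ht2 ?_ hmin1).trans ?_
    · rw [div_le_iff₀ hlam0]; linarith
    · rw [ENNReal.ofReal_mul (by positivity), ENNReal.ofReal_coe_nnreal]
      gcongr
      rw [div_le_iff₀ (by positivity)]
      have h3 : lam ^ (1 : ℝ) ≤ (min (Real.sqrt lam) Lam * (D / 4)) ^ N := by
        calc lam ^ (1 : ℝ) ≤ lam ^ (η / 2 * N) :=
              Real.rpow_le_rpow_of_exponent_le hlam (by linarith)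
          _ = (lam ^ (η / 2)) ^ N := by rw [Real.rpow_mul hlam0.le, Real.rpow_natCast]
          _ ≤ _ := pow_le_pow_left₀ (by positivity) hmin N
      calc Real.sqrt lam = lam ^ (-(1 / 2) : ℝ) * lam ^ (1 : ℝ) := by
            rw [← Real.rpow_add hlam0, Real.sqrt_eq_rpow]; norm_num
        _ ≤ _ := by gcongr
  -- Lᵖ norms
  have l1 : ∫⁻ y, (S'.indicator (fun y => ‖GG n Lam F y‖ₑ) y) ^ p ≤
      ENNReal.ofReal (CN ^ (p - 2) * CN * (lam ^ (-(5 / 2) : ℝ) * A ^ (p - 2))) *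
        ∫⁻ y, ‖F y‖ₑ ^ 2 := by
    have h1 : ∀ y, (S'.indicator (fun y => ‖GG n Lam F y‖ₑ) y) ^ p =
        S'.indicator (fun y => ‖GG n Lam F y‖ₑ ^ p) y := by
      intro y
      by_cases hy : y ∈ S'
      · rw [indicator_of_mem hy, indicator_of_mem hy]
      · rw [indicator_of_notMem hy, indicator_of_notMem hy, ENNReal.zero_rpow_of_pos (by linarith)]
    simp only [h1]
    rw [lintegral_indicator hS'm]
    have hq : 1 ≤ (Lam * D) ^ N := one_le_pow₀ hLD1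
    have hM : ∀ y ∈ S', ‖GG n Lam F y‖ ≤ CN * A := by
      intro y hy
      refine (g5 y hy).trans ?_
      exact div_le_self (by positivity) hq
    refine (lp_le_l2' _ S' hS'm (CN * A) p hp.le hM (by positivity)).trans ?_
    have h2 : CN / (Lam * D) ^ N ≤ CN * lam ^ (-(5 / 2) : ℝ) := by
      rw [div_eq_mul_inv]
      gcongr
      rw [Real.rpow_neg hlam0.le]
      apply inv_anti₀ (by positivity)
      calc lam ^ (5 / 2 : ℝ) ≤ lam ^ (η * N) :=
            Real.rpow_le_rpow_of_exponent_le hlam (by linarith)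
        _ = (lam ^ η) ^ N := by rw [Real.rpow_mul hlam0.le, Real.rpow_natCast]
        _ ≤ _ := pow_le_pow_left₀ (by positivity) (by linarith) N
    calc ENNReal.ofReal ((CN * A) ^ (p - 2)) * ∫⁻ y in S', ‖GG n Lam F y‖ₑ ^ 2
        ≤ ENNReal.ofReal ((CN * A) ^ (p - 2)) * (ENNReal.ofReal (CN * lam ^ (-(5 / 2) : ℝ)) *
            ∫⁻ y, ‖F y‖ₑ ^ 2) := by
          gcongr
          exact g6.trans (by gcongr)
      _ = _ := by
          rw [← mul_assoc, ← ENNReal.ofReal_mul (by positivity), Real.mul_rpow hCN0 hA]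
          congr 2; ring
  have l2' : ∫⁻ y, ‖GG n Lam F y‖ₑ ^ p ≤
      ENNReal.ofReal (CG ^ (p - 2) * CG * A ^ (p - 2)) * ∫⁻ y, ‖F y‖ₑ ^ 2 := by
    refine (lp_le_l2 _ (CG * A) p hp.le g3 (by positivity)).trans ?_
    calc ENNReal.ofReal ((CG * A) ^ (p - 2)) * ∫⁻ y, ‖GG n Lam F y‖ₑ ^ 2
        ≤ ENNReal.ofReal ((CG * A) ^ (p - 2)) * (ENNReal.ofReal CG * ∫⁻ y, ‖F y‖ₑ ^ 2) := by
          gcongr
      _ = _ := by
          rw [← mul_assoc, ← ENNReal.ofReal_mul (by positivity), Real.mul_rpow hCG0 hA]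
          congr 2; ring
  refine hmain.trans ?_
  have hA' : 0 ≤ A ^ (p - 2) := by positivity
  calc (2 : ℝ≥0∞) ^ (p - 1) * ((∫⁻ y, ‖KK t lam Lam y‖ₑ) ^ p *
        (∫⁻ y, (S'.indicator (fun y => ‖GG n Lam F y‖ₑ) y) ^ p) +
        (∫⁻ y, T.indicator (fun x => ‖KK t lam Lam x‖ₑ) y) ^ p * (∫⁻ y, ‖GG n Lam F y‖ₑ ^ p))
      ≤ ENNReal.ofReal (2 ^ (p - 1)) * (ENNReal.ofReal (C1 * lam ^ (1 / 2 : ℝ)) ^ p *
        (ENNReal.ofReal (CN ^ (p - 2) * CN * (lam ^ (-(5 / 2) : ℝ) * A ^ (p - 2))) *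
          ∫⁻ y, ‖F y‖ₑ ^ 2) + ENNReal.ofReal (C2 * lam ^ (-(1 / 2) : ℝ)) ^ p *
          (ENNReal.ofReal (CG ^ (p - 2) * CG * A ^ (p - 2)) * ∫⁻ y, ‖F y‖ₑ ^ 2)) := by
        rw [← ENNReal.ofReal_rpow_of_nonneg (by norm_num) (by linarith),
          show ENNReal.ofReal 2 = 2 by norm_num]
        gcongr
    _ = ENNReal.ofReal (2 ^ (p - 1) * ((C1 * lam ^ (1 / 2 : ℝ)) ^ p *
          (CN ^ (p - 2) * CN * (lam ^ (-(5 / 2) : ℝ) * A ^ (p - 2))) +
          (C2 * lam ^ (-(1 / 2) : ℝ)) ^ p * (CG ^ (p - 2) * CG * A ^ (p - 2)))) *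
          ∫⁻ y, ‖F y‖ₑ ^ 2 := by
        rw [ENNReal.ofReal_rpow_of_nonneg (by positivity) (by linarith),
          ENNReal.ofReal_rpow_of_nonneg (by positivity) (by linarith),
          ENNReal.ofReal_mul (p := (2 : ℝ) ^ (p - 1)) (by positivity),
          ENNReal.ofReal_add (by positivity) (by positivity),
          ENNReal.ofReal_mul (p := (C1 * lam ^ (1 / 2 : ℝ)) ^ p) (by positivity),
          ENNReal.ofReal_mul (p := (C2 * lam ^ (-(1 / 2) : ℝ)) ^ p) (by positivity)]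
        ring
    _ ≤ _ := by
        refine mul_le_mul' (ENNReal.ofReal_le_ofReal ?_) le_rfl
        have h1 : (C1 * lam ^ (1 / 2 : ℝ)) ^ p * lam ^ (-(5 / 2) : ℝ) ≤ (C1 : ℝ) ^ p * lam⁻¹ := by
          rw [Real.mul_rpow (by positivity) (by positivity), mul_assoc, ← Real.rpow_mul hlam0.le,
            ← Real.rpow_add hlam0, ← Real.rpow_neg_one lam]
          gcongr
          linarith
        have h2 : (C2 * lam ^ (-(1 / 2) : ℝ)) ^ p ≤ (C2 : ℝ) ^ p * lam⁻¹ := by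
          rw [Real.mul_rpow (by positivity) (by positivity), ← Real.rpow_mul hlam0.le,
            ← Real.rpow_neg_one lam]
          gcongr
          linarith
        calc 2 ^ (p - 1) * ((C1 * lam ^ (1 / 2 : ℝ)) ^ p *
            (CN ^ (p - 2) * CN * (lam ^ (-(5 / 2) : ℝ) * A ^ (p - 2))) +
            (C2 * lam ^ (-(1 / 2) : ℝ)) ^ p * (CG ^ (p - 2) * CG * A ^ (p - 2)))
            = 2 ^ (p - 1) * (((C1 * lam ^ (1 / 2 : ℝ)) ^ p * lam ^ (-(5 / 2) : ℝ)) *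
            (CN ^ (p - 2) * CN * A ^ (p - 2)) +
            (C2 * lam ^ (-(1 / 2) : ℝ)) ^ p * (CG ^ (p - 2) * CG * A ^ (p - 2))) := by ring
          _ ≤ 2 ^ (p - 1) * (((C1 : ℝ) ^ p * lam⁻¹) *
            (CN ^ (p - 2) * CN * A ^ (p - 2)) +
            ((C2 : ℝ) ^ p * lam⁻¹) * (CG ^ (p - 2) * CG * A ^ (p - 2))) := by gcongr
          _ = _ := by ring

/-- the estimate on the slab `|x₁| ≤ δ`, `1/Lam ≤ δ ≤ D/16` -/
lemma star (hG : T_GB) (hS : T_S2D) (hKL : T_KL1) (hY : T_YG) (n : ℕ) (hn : 2 ≤ n) (p β η : ℝ)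
    (hp : 2 < p) (hp3 : p ≤ 3) (hβ : 0 ≤ β) (hβ1 : β < 1) (hβp : β ≤ 2 - p / 2) (hη : 0 < η) :
    ∃ C : ℝ, 0 ≤ C ∧ ∀ (lam Lam A D : ℝ) (F : ℝ × ℝ → ℂ), 1 ≤ lam →
    1 ≤ Lam → Lam ≤ 4 * lam → 0 < D → D ≤ 64 → PF A F → (∀ y, F y ≠ 0 → D ≤ y.1) →
    ∀ δ : ℝ, 1 / Lam ≤ δ → δ ≤ D / 16 →
    ∫⁻ t in Icc (1 : ℝ) 2, ∫⁻ x in {x : ℝ × ℝ | |x.1| ≤ δ},
        ‖cv (KK t lam Lam) (GG n Lam F) x‖ₑ ^ p ≤
      ENNReal.ofReal (C * (lam ^ (η / 2) * (δ / D) ^ β * A ^ (p - 2))) * ∫⁻ y, ‖F y‖ₑ ^ 2 := by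
  obtain ⟨C1, hC10, hC1⟩ := slab_bounds hG hS n hn p (η / 4) hp hp3 (by positivity)
  obtain ⟨C2, hC20, hC2⟩ := far_bound hG hKL hY n hn p (η / 4) hp hp3 (by positivity)
  refine ⟨16000 * C1 + 256 * C2, by positivity, ?_⟩
  intro lam Lam A D F hlam hLam hLl hD hD64 hF hFD δ hδ1 hδ2
  have hA : 0 ≤ A := (norm_nonneg _).trans (hF.2.1 0)
  have hA' : 0 ≤ A ^ (p - 2) := by positivity
  have hlam0 : 0 < lam := by linarith
  have hLam0 : 0 < Lam := by linarith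
  have hδ0 : 0 < δ := lt_of_lt_of_le (by positivity) hδ1
  set u : ℝ := δ / D with hu
  have hu0 : 0 < u := by positivity
  have hu1 : u ≤ 1 := by rw [hu, div_le_one hD]; linarith
  have huβ : u ≤ u ^ β := by
    calc u = u ^ (1 : ℝ) := (Real.rpow_one u).symm
      _ ≤ u ^ β := Real.rpow_le_rpow_of_exponent_ge hu0 hu1 hβ1.le
  have huL : 1 / (Lam * D) ≤ u := by
    rw [hu, div_le_div_iff₀ (by positivity) hD]
    rw [div_le_iff₀ hLam0] at hδ1
    nlinarith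
  have hl1 : 1 ≤ lam ^ (η / 4) := Real.one_le_rpow hlam (by positivity)
  have hl2 : lam ^ (η / 2) = lam ^ (η / 4) * lam ^ (η / 4) := by
    rw [← Real.rpow_add hlam0]; congr 1; ring
  have hl0 : 0 < lam ^ (η / 4) := by positivity
  obtain ⟨hall, hslab⟩ := hC1 lam Lam A F hlam hLam0 hLl hF
  -- it is enough to have one of the bounds
  have fin : ∀ c : ℝ, 0 ≤ c → c ≤ (16000 * C1 + 256 * C2) * (lam ^ (η / 2) * u ^ β) →
      ENNReal.ofReal (c * A ^ (p - 2)) * ∫⁻ y, ‖F y‖ₑ ^ 2 ≤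
      ENNReal.ofReal ((16000 * C1 + 256 * C2) * (lam ^ (η / 2) * u ^ β * A ^ (p - 2))) *
        ∫⁻ y, ‖F y‖ₑ ^ 2 := by
    intro c hc hcc
    refine mul_le_mul' (ENNReal.ofReal_le_ofReal ?_) le_rfl
    calc c * A ^ (p - 2) ≤ (16000 * C1 + 256 * C2) * (lam ^ (η / 2) * u ^ β) * A ^ (p - 2) := by
          gcongr
      _ = _ := by ring
  by_cases h1 : Lam * D ≤ 4 * lam ^ (η / 4)
  · -- case (i)
    have h2 : ∫⁻ t in Icc (1 : ℝ) 2, ∫⁻ x in {x : ℝ × ℝ | |x.1| ≤ δ},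
        ‖cv (KK t lam Lam) (GG n Lam F) x‖ₑ ^ p ≤
        ENNReal.ofReal (C1 * lam ^ (η / 4) * A ^ (p - 2)) * ∫⁻ y, ‖F y‖ₑ ^ 2 := by
      refine le_trans (lintegral_mono fun t => ?_) (hall.trans (le_of_eq ?_))
      · exact setLIntegral_le_lintegral _ _
      · congr 2; ring
    refine h2.trans (fin _ (by positivity) ?_)
    have h3 : 1 / (4 * lam ^ (η / 4)) ≤ u ^ β := by
      refine le_trans ?_ (huL.trans huβ)
      apply one_div_le_one_div_of_le (by positivity) h1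
    have h4 : lam ^ (η / 4) ≤ 4 * (lam ^ (η / 2) * u ^ β) := by
      rw [div_le_iff₀ (by positivity)] at h3
      rw [hl2]
      nlinarith
    have h5 : 0 ≤ lam ^ (η / 2) * u ^ β := by positivity
    nlinarith [mul_le_mul_of_nonneg_left h4 hC10, mul_nonneg hC10 h5, mul_nonneg hC20 h5]
  push Not at h1
  by_cases h2 : D * lam ≤ 16000 * Lam
  · -- case (ii)(a)
    have h3 := hslab δ hδ0
    have h4 : ∫⁻ t in Icc (1 : ℝ) 2, ∫⁻ x in {x : ℝ × ℝ | |x.1| ≤ δ},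
        ‖cv (KK t lam Lam) (GG n Lam F) x‖ₑ ^ p ≤
        ENNReal.ofReal (C1 * (lam ^ (η / 4) * (δ * lam / Lam) ^ (2 - p / 2)) * A ^ (p - 2)) *
          ∫⁻ y, ‖F y‖ₑ ^ 2 := by
      refine h3.trans (le_of_eq ?_)
      congr 2; ring
    refine h4.trans (fin _ (by positivity) ?_)
    have h5 : δ * lam / Lam ≤ 16000 * u := by
      rw [hu, ← mul_div_assoc, div_le_div_iff₀ hLam0 hD]
      nlinarith
    have h6 : (δ * lam / Lam) ^ (2 - p / 2) ≤ 16000 * u ^ β := by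
      calc (δ * lam / Lam) ^ (2 - p / 2) ≤ (16000 * u) ^ (2 - p / 2) :=
            Real.rpow_le_rpow (by positivity) h5 (by linarith)
        _ = 16000 ^ (2 - p / 2) * u ^ (2 - p / 2) := Real.mul_rpow (by norm_num) hu0.le
        _ ≤ 16000 ^ (1 : ℝ) * u ^ β := by
            apply mul_le_mul
            · exact Real.rpow_le_rpow_of_exponent_le (by norm_num) (by linarith)
            · exact Real.rpow_le_rpow_of_exponent_ge hu0 hu1 hβp
            · positivity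
            · positivity
        _ = 16000 * u ^ β := by rw [Real.rpow_one]
    have h7 : lam ^ (η / 4) ≤ lam ^ (η / 2) :=
      Real.rpow_le_rpow_of_exponent_le hlam (by linarith)
    have h8 : lam ^ (η / 4) * (δ * lam / Lam) ^ (2 - p / 2) ≤ lam ^ (η / 2) * (16000 * u ^ β) :=
      mul_le_mul h7 h6 (by positivity) (by positivity)
    have h9 : 0 ≤ lam ^ (η / 2) * u ^ β := by positivity
    nlinarith [mul_le_mul_of_nonneg_left h8 hC10, mul_nonneg hC20 h9]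
  · -- case (ii)(b)
    push Not at h2
    have h3 : ∫⁻ t in Icc (1 : ℝ) 2, ∫⁻ x in {x : ℝ × ℝ | |x.1| ≤ δ},
        ‖cv (KK t lam Lam) (GG n Lam F) x‖ₑ ^ p ≤
        ENNReal.ofReal (C2 * lam⁻¹ * A ^ (p - 2)) * ∫⁻ y, ‖F y‖ₑ ^ 2 := by
      calc ∫⁻ t in Icc (1 : ℝ) 2, ∫⁻ x in {x : ℝ × ℝ | |x.1| ≤ δ},
            ‖cv (KK t lam Lam) (GG n Lam F) x‖ₑ ^ p
          ≤ ∫⁻ t in Icc (1 : ℝ) 2, ENNReal.ofReal (C2 * (lam⁻¹ * A ^ (p - 2))) *
              ∫⁻ y, ‖F y‖ₑ ^ 2 := by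
            apply setLIntegral_mono' measurableSet_Icc
            intro t ht
            exact hC2 lam Lam A D δ t F hlam hLam0 hLl hD h1.le h2.le (by linarith [ht.1]) ht.2
              hδ2 hF hFD
        _ = _ := by
            rw [lintegral_const, Measure.restrict_apply MeasurableSet.univ, univ_inter,
              Real.volume_Icc]
            norm_num
            rw [mul_assoc]
    refine h3.trans (fin _ (by positivity) ?_)
    have h4 : lam⁻¹ ≤ 256 * u ^ β := by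
      have h5 : 1 / (256 * lam) ≤ 1 / (Lam * D) := by
        apply one_div_le_one_div_of_le (by positivity)
        nlinarith
      have h6 : 1 / (256 * lam) ≤ u ^ β := h5.trans (huL.trans huβ)
      have h7 : lam⁻¹ = 256 * (1 / (256 * lam)) := by field_simp
      rw [h7]; gcongr
    have h5 : 1 ≤ lam ^ (η / 2) := Real.one_le_rpow hlam (by positivity)
    have h6 : 0 ≤ u ^ β := by positivity
    have h7 : lam⁻¹ ≤ 256 * (lam ^ (η / 2) * u ^ β) := by nlinarith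
    have h9 : 0 ≤ lam ^ (η / 2) * u ^ β := by positivity
    nlinarith [mul_le_mul_of_nonneg_left h7 hC20, mul_nonneg hC10 h9]

/-- the dyadic decomposition of the weight -/
lemma weight_bound (β D ε : ℝ) (hβ : 0 ≤ β) (hβ1 : β < 1) (hD : 0 < D) (hε : 0 < ε) (L : ℕ)
    (hL : D / 16 / 2 ^ L < ε) (s : ℝ) (hs : 0 ≤ s) :
    ENNReal.ofReal ((s + ε) ^ (-β)) ≤ ENNReal.ofReal (16 * D ^ (-β)) +
      ∑ k ∈ (Finset.range L).filter (fun k => ε ≤ D / 16 / 2 ^ k),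
        (if s ≤ D / 16 / 2 ^ k then ENNReal.ofReal ((2 / (D / 16 / 2 ^ k)) ^ β) else 0) := by
  classical
  by_cases h : D / 16 ≤ s + ε
  · refine le_trans (ENNReal.ofReal_le_ofReal ?_) le_self_add
    calc (s + ε) ^ (-β) ≤ (D / 16) ^ (-β) :=
          Real.rpow_le_rpow_of_nonpos (by positivity) h (by linarith)
      _ = 16 ^ β * D ^ (-β) := by
          rw [Real.div_rpow hD.le (by norm_num), Real.rpow_neg (by norm_num : (0:ℝ) ≤ 16), div_inv_eq_mul]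
          ring
      _ ≤ 16 ^ (1 : ℝ) * D ^ (-β) := by
          gcongr
          norm_num
      _ = 16 * D ^ (-β) := by rw [Real.rpow_one]
  · push Not at h
    have hex : ∃ k : ℕ, D / 16 / 2 ^ (k + 1) ≤ s + ε := by
      refine ⟨L, ?_⟩
      have h1 : D / 16 / 2 ^ (L + 1) ≤ D / 16 / 2 ^ L := by
        apply div_le_div_of_nonneg_left (by positivity) (by positivity)
        exact pow_le_pow_right₀ (by norm_num) (by omega)
      linarith
    set k := Nat.find hex with hk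
    have hk1 : D / 16 / 2 ^ (k + 1) ≤ s + ε := Nat.find_spec hex
    have hk2 : s + ε < D / 16 / 2 ^ k := by
      rcases Nat.eq_zero_or_pos k with h0 | h0
      · rw [h0, pow_zero, div_one]; exact h
      · have := Nat.find_min hex (m := k - 1) (by omega)
        rw [not_le] at this
        rwa [show k - 1 + 1 = k by omega] at this
    have hkL : k < L := by
      by_contra hn
      push Not at hn
      have h1 : D / 16 / 2 ^ k ≤ D / 16 / 2 ^ L := by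
        apply div_le_div_of_nonneg_left (by positivity) (by positivity)
        exact pow_le_pow_right₀ (by norm_num) hn
      linarith
    have hmem : k ∈ (Finset.range L).filter (fun k => ε ≤ D / 16 / 2 ^ k) := by
      rw [Finset.mem_filter, Finset.mem_range]
      exact ⟨hkL, by linarith⟩
    refine le_trans ?_ le_add_self
    refine le_trans ?_ (Finset.single_le_sum (f := fun k =>
      if s ≤ D / 16 / 2 ^ k then ENNReal.ofReal ((2 / (D / 16 / 2 ^ k)) ^ β) else 0)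
      (fun _ _ => bot_le) hmem)
    rw [if_pos (by linarith)]
    apply ENNReal.ofReal_le_ofReal
    calc (s + ε) ^ (-β) ≤ (D / 16 / 2 ^ (k + 1)) ^ (-β) :=
          Real.rpow_le_rpow_of_nonpos (by positivity) hk1 (by linarith)
      _ = (2 / (D / 16 / 2 ^ k)) ^ β := by
          rw [Real.rpow_neg (by positivity), ← Real.inv_rpow (by positivity)]
          congr 1
          rw [pow_succ]
          field_simp

theorem pc1 (hR : T_RED2) (hG : T_GB) (hS : T_S2D) (hW : T_WRED) (hK : T_KAP) (hKL : T_KL1)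
    (hY : T_YG) : T_PC1 := by
  classical
  intro n p β η hn hp hp3 hβ hβ1 hβp hη
  obtain ⟨CW, hCW⟩ := red_weight hR hW hK n hn p β (by linarith) hβ hβ1
  obtain ⟨C1, hC10, hC1⟩ := slab_bounds hG hS n hn p η hp hp3 hη
  obtain ⟨C2, hC20, hC2⟩ := star hG hS hKL hY n hn p β η hp hp3 hβ hβ1 hβp hη
  have hlog2 : 0 < Real.log 2 := Real.log_pos (by norm_num)
  set CL : ℝ := 6 + 2 / (η * Real.log 2) with hCL
  have hCL0 : 0 ≤ CL := by positivity
  refine ⟨CW * Real.toNNReal (16 * C1 + CL * (2 * C2)), ?_⟩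
  intro lam Lam A D F hlam hLam hLl hLD hD64 hF hFD
  have hA : 0 ≤ A := (norm_nonneg _).trans (hF.2.1 0)
  have hA' : 0 ≤ A ^ (p - 2) := by positivity
  have hlam0 : 0 < lam := by linarith
  have hLam0 : 0 < Lam := by linarith
  have hLD0 : 0 < Lam * D := by linarith
  have hD : 0 < D := pos_of_mul_pos_right hLD0 hLam0.le
  have hGm : Measurable (GG n Lam F) := ((hG n hn).1.choose_spec.2 Lam A F hLam0 hF).1
  set X : ℝ≥0∞ := ∫⁻ y, ‖F y‖ₑ ^ 2 with hX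
  set f : ℝ → ℝ × ℝ → ℝ≥0∞ := fun t x => ‖cv (KK t lam Lam) (GG n Lam F) x‖ₑ ^ p with hf
  have hfm : Measurable (Function.uncurry f) := by
    exact ((measurable_cvKK lam Lam _ hGm).enorm).pow_const p
  have hfm1 : ∀ t, Measurable (f t) := fun t => hfm.comp (f := fun x : ℝ × ℝ => (t, x)) (by fun_prop)
  -- the number of dyadic scales
  set L : ℕ := ⌈Real.logb 2 (16 * lam)⌉₊ + 1 with hL
  have hL1 : D / 16 / 2 ^ L < 1 / Lam := by
    have h1 : 16 * lam ≤ 2 ^ ⌈Real.logb 2 (16 * lam)⌉₊ := by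
      have h2 : Real.logb 2 (16 * lam) ≤ ⌈Real.logb 2 (16 * lam)⌉₊ := Nat.le_ceil _
      calc 16 * lam = 2 ^ Real.logb 2 (16 * lam) :=
            (Real.rpow_logb (by norm_num) (by norm_num) (by positivity)).symm
        _ ≤ 2 ^ ((⌈Real.logb 2 (16 * lam)⌉₊ : ℕ) : ℝ) :=
            Real.rpow_le_rpow_of_exponent_le (by norm_num) h2
        _ = _ := Real.rpow_natCast _ _
    have h2 : 16 * lam < 2 ^ L := by
      rw [hL, pow_succ]; nlinarith
    rw [div_div, div_lt_div_iff₀ (by positivity) hLam0, one_mul]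
    nlinarith
  have hL2 : (L : ℝ) ≤ CL * lam ^ (η / 2) := by
    have h0 : 0 ≤ Real.logb 2 (16 * lam) := Real.logb_nonneg (by norm_num) (by linarith)
    have h1 : (L : ℝ) ≤ Real.logb 2 (16 * lam) + 2 := by
      rw [hL]; push_cast
      linarith [Nat.ceil_lt_add_one h0]
    have h2 : Real.logb 2 (16 * lam) = 4 + Real.log lam / Real.log 2 := by
      rw [Real.logb_mul (by norm_num) hlam0.ne']
      congr 1
      rw [show (16 : ℝ) = 2 ^ (4 : ℝ) by norm_num]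
      exact Real.logb_rpow (by norm_num) (by norm_num)
    have h3 : Real.log lam ≤ lam ^ (η / 2) / (η / 2) := Real.log_le_rpow_div hlam0.le (by positivity)
    have h4 : Real.log lam / Real.log 2 ≤ 2 / (η * Real.log 2) * lam ^ (η / 2) := by
      rw [div_le_iff₀ hlog2]
      refine h3.trans (le_of_eq ?_)
      field_simp
    have h5 : 1 ≤ lam ^ (η / 2) := Real.one_le_rpow hlam (by positivity)
    rw [hCL, add_mul]
    linarith
  set T : Finset ℕ := (Finset.range L).filter (fun k => 1 / Lam ≤ D / 16 / 2 ^ k) with hT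
  have hTc : (T.card : ℝ) ≤ L := by
    have : T.card ≤ L := by
      calc T.card ≤ (Finset.range L).card := Finset.card_filter_le _ _
        _ = L := Finset.card_range L
    exact_mod_cast this
  set a₀ : ℝ≥0∞ := ENNReal.ofReal (16 * D ^ (-β)) with ha₀
  set ck' : ℕ → ℝ≥0∞ := fun k => ENNReal.ofReal ((2 / (D / 16 / 2 ^ k)) ^ β) with hck'
  set Sk : ℕ → Set (ℝ × ℝ) := fun k => {x : ℝ × ℝ | |x.1| ≤ D / 16 / 2 ^ k} with hSk
  have hSkm : ∀ k, MeasurableSet (Sk k) := fun k => measurableSet_slab _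
  -- splitting
  have split : ∀ t, ∫⁻ x : ℝ × ℝ, f t x * ENNReal.ofReal ((|x.1| + 1 / Lam) ^ (-β)) ≤
      a₀ * (∫⁻ x, f t x) + ∑ k ∈ T, ck' k * ∫⁻ x in Sk k, f t x := by
    intro t
    have h1 : ∀ x : ℝ × ℝ, f t x * ENNReal.ofReal ((|x.1| + 1 / Lam) ^ (-β)) ≤
        a₀ * f t x + ∑ k ∈ T, ck' k * (Sk k).indicator (f t) x := by
      intro x
      have h2 := weight_bound β D (1 / Lam) hβ hβ1 hD (by positivity) L hL1 |x.1| (abs_nonneg _)
      calc f t x * ENNReal.ofReal ((|x.1| + 1 / Lam) ^ (-β))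
          ≤ f t x * (ENNReal.ofReal (16 * D ^ (-β)) +
            ∑ k ∈ (Finset.range L).filter (fun k => 1 / Lam ≤ D / 16 / 2 ^ k),
            (if |x.1| ≤ D / 16 / 2 ^ k then ENNReal.ofReal ((2 / (D / 16 / 2 ^ k)) ^ β) else 0)) := by
            gcongr
        _ = a₀ * f t x + ∑ k ∈ T, ck' k * (Sk k).indicator (f t) x := by
            rw [mul_add, Finset.mul_sum, mul_comm]
            congr 1
            apply Finset.sum_congr rfl
            intro k _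
            by_cases h3 : |x.1| ≤ D / 16 / 2 ^ k
            · rw [if_pos h3, indicator_of_mem (show x ∈ Sk k from h3), mul_comm]
            · rw [if_neg h3, indicator_of_notMem (show x ∉ Sk k from h3), mul_zero, mul_zero]
    refine (lintegral_mono h1).trans (le_of_eq ?_)
    rw [lintegral_add_left ((hfm1 t).const_mul _), lintegral_const_mul _ (hfm1 t),
      lintegral_finsetSum _ (fun k _ => ((hfm1 t).indicator (hSkm k)).const_mul _)]
    congr 1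
    apply Finset.sum_congr rfl
    intro k _
    rw [lintegral_const_mul _ ((hfm1 t).indicator (hSkm k)), lintegral_indicator (hSkm k)]
  have hm1 : Measurable (fun t => ∫⁻ x, f t x) := hfm.lintegral_prod_right
  have hm2 : ∀ k, Measurable (fun t => ∫⁻ x in Sk k, f t x) := fun k => hfm.lintegral_prod_right
  have total : ∫⁻ t in Icc (1 : ℝ) 2, ∫⁻ x : ℝ × ℝ, f t x *
      ENNReal.ofReal ((|x.1| + 1 / Lam) ^ (-β)) ≤
      ENNReal.ofReal ((16 * C1 + CL * (2 * C2)) * (lam ^ η * D ^ (-β) * A ^ (p - 2))) * X := by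
    obtain ⟨hall, -⟩ := hC1 lam Lam A F hlam hLam0 hLl hF
    calc ∫⁻ t in Icc (1 : ℝ) 2, ∫⁻ x : ℝ × ℝ, f t x *
          ENNReal.ofReal ((|x.1| + 1 / Lam) ^ (-β))
        ≤ ∫⁻ t in Icc (1 : ℝ) 2, (a₀ * (∫⁻ x, f t x) + ∑ k ∈ T, ck' k * ∫⁻ x in Sk k, f t x) :=
          lintegral_mono split
      _ = a₀ * (∫⁻ t in Icc (1 : ℝ) 2, ∫⁻ x, f t x) +
          ∑ k ∈ T, ck' k * ∫⁻ t in Icc (1 : ℝ) 2, ∫⁻ x in Sk k, f t x := by
          rw [lintegral_add_left (hm1.const_mul _), lintegral_const_mul _ hm1,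
            lintegral_finsetSum _ (fun k _ => (hm2 k).const_mul _)]
          congr 1
          apply Finset.sum_congr rfl
          intro k _
          rw [lintegral_const_mul _ (hm2 k)]
      _ ≤ a₀ * (ENNReal.ofReal (C1 * (lam ^ η * A ^ (p - 2))) * X) +
          ∑ k ∈ T, ENNReal.ofReal (2 * C2 * (lam ^ (η / 2) * D ^ (-β) * A ^ (p - 2))) * X := by
          apply add_le_add
          · gcongr
          · apply Finset.sum_le_sum
            intro k hk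
            rw [hT, Finset.mem_filter] at hk
            set δ : ℝ := D / 16 / 2 ^ k with hδ
            have hδ0 : 0 < δ := by positivity
            have h1 : δ ≤ D / 16 := by
              rw [hδ]
              exact div_le_self (by positivity) (one_le_pow₀ (by norm_num))
            have h2 := hC2 lam Lam A D F hlam hLam hLl hD hD64 hF (fun y hy => (hFD y hy).1) δ hk.2 h1
            calc ck' k * ∫⁻ t in Icc (1 : ℝ) 2, ∫⁻ x in Sk k, f t x
                ≤ ENNReal.ofReal ((2 / δ) ^ β) *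
                  (ENNReal.ofReal (C2 * (lam ^ (η / 2) * (δ / D) ^ β * A ^ (p - 2))) * X) := by
                  gcongr
              _ = ENNReal.ofReal ((2 / δ) ^ β * (C2 * (lam ^ (η / 2) * (δ / D) ^ β *
                    A ^ (p - 2)))) * X := by
                  rw [← mul_assoc, ← ENNReal.ofReal_mul (by positivity)]
              _ ≤ _ := by
                  refine mul_le_mul' (ENNReal.ofReal_le_ofReal ?_) le_rfl
                  have h3 : (2 / δ) ^ β * (δ / D) ^ β ≤ 2 * D ^ (-β) := by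
                    rw [← Real.mul_rpow (by positivity) (by positivity)]
                    have h4 : 2 / δ * (δ / D) = 2 / D := by field_simp
                    rw [h4, Real.div_rpow (by norm_num) hD.le, Real.rpow_neg hD.le, div_eq_mul_inv]
                    gcongr
                    calc (2 : ℝ) ^ β ≤ 2 ^ (1 : ℝ) :=
                          Real.rpow_le_rpow_of_exponent_le (by norm_num) hβ1.le
                      _ = 2 := Real.rpow_one 2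
                  calc (2 / δ) ^ β * (C2 * (lam ^ (η / 2) * (δ / D) ^ β * A ^ (p - 2)))
                      = C2 * lam ^ (η / 2) * A ^ (p - 2) * ((2 / δ) ^ β * (δ / D) ^ β) := by ring
                    _ ≤ C2 * lam ^ (η / 2) * A ^ (p - 2) * (2 * D ^ (-β)) := by gcongr
                    _ = _ := by ring
      _ = ENNReal.ofReal (16 * D ^ (-β) * (C1 * (lam ^ η * A ^ (p - 2))) +
          T.card * (2 * C2 * (lam ^ (η / 2) * D ^ (-β) * A ^ (p - 2)))) * X := by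
          rw [Finset.sum_const, nsmul_eq_mul, ENNReal.ofReal_add (by positivity) (by positivity),
            ENNReal.ofReal_mul (p := 16 * D ^ (-β)) (by positivity),
            ENNReal.ofReal_mul (p := (T.card : ℝ)) (by positivity), ENNReal.ofReal_natCast]
          ring
      _ ≤ _ := by
          refine mul_le_mul' (ENNReal.ofReal_le_ofReal ?_) le_rfl
          have h1 : (T.card : ℝ) ≤ CL * lam ^ (η / 2) := hTc.trans hL2
          have h2 : lam ^ η = lam ^ (η / 2) * lam ^ (η / 2) := by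
            rw [← Real.rpow_add hlam0]; congr 1; ring
          calc 16 * D ^ (-β) * (C1 * (lam ^ η * A ^ (p - 2))) +
              T.card * (2 * C2 * (lam ^ (η / 2) * D ^ (-β) * A ^ (p - 2)))
              ≤ 16 * D ^ (-β) * (C1 * (lam ^ η * A ^ (p - 2))) +
              CL * lam ^ (η / 2) * (2 * C2 * (lam ^ (η / 2) * D ^ (-β) * A ^ (p - 2))) := by
                gcongr
            _ = _ := by rw [h2]; ring
  -- conclusion
  calc ∫⁻ t in Icc (1 : ℝ) 2, ∫⁻ z : ℝ, ∫⁻ r in Ioi (0 : ℝ),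
      ‖PU n lam Lam t F (r, z)‖ₑ ^ p * ENNReal.ofReal (r ^ (-β))
      ≤ ∫⁻ t in Icc (1 : ℝ) 2, CW * ∫⁻ x : ℝ × ℝ, f t x *
          ENNReal.ofReal ((|x.1| + 1 / Lam) ^ (-β)) := by
        apply lintegral_mono
        intro t
        exact hCW lam Lam A t F hlam0 hLam0 hF hGm
    _ = CW * ∫⁻ t in Icc (1 : ℝ) 2, ∫⁻ x : ℝ × ℝ, f t x *
          ENNReal.ofReal ((|x.1| + 1 / Lam) ^ (-β)) := by
        rw [lintegral_const_mul' _ _ ENNReal.coe_ne_top]
    _ ≤ CW * (ENNReal.ofReal ((16 * C1 + CL * (2 * C2)) * (lam ^ η * D ^ (-β) * A ^ (p - 2))) * X) := by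
        gcongr
    _ = _ := by
        rw [ENNReal.ofReal_mul (by positivity), ENNReal.coe_mul]
        simp only [ENNReal.ofReal]
        ring

end Pool.Agent.H57.LS
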