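import Pool.Agent.H57.LS.GBase

/-!
Module RED1: from `ℝ^(n+1)` to profiles.
-/

set_option autoImplicit false

namespace Pool.Agent.H57.LS

open Pool.Agent.H83.LS MeasureTheory Set FourierTransform
open scoped ENNReal NNReal RealInnerProductSpace

lemma fourier_eq_e {d : ℕ} (f : EE d → ℂ) (w : EE d) :
    𝓕 f w = ∫ v, e (-(inner ℝ v w)) * f v := by
  rw [Real.fourier_eq]
  rfl

lemma pt_last (n : ℕ) (hn : 2 ≤ n) (ρ z : ℝ) : (pt n ρ z) (Fin.last n) = z := by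
  have h : (Fin.last n) ≠ 0 := by
    intro h; rw [Fin.ext_iff] at h; simp at h; omega
  simp [pt, h]

lemma norm_pt_sq (n : ℕ) (hn : 2 ≤ n) (ρ z : ℝ) : ‖pt n ρ z‖ ^ 2 = ρ ^ 2 + z ^ 2 := by
  have h : (0 : Fin (n + 1)) ≠ Fin.last n := by
    intro h; rw [Fin.ext_iff] at h; simp at h; omega
  rw [EuclideanSpace.real_norm_sq_eq]
  have : ∀ i : Fin (n + 1), (pt n ρ z) i ^ 2 =
      (if i = 0 then ρ ^ 2 else 0) + (if i = Fin.last n then z ^ 2 else 0) := by
    intro i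
    by_cases h0 : i = 0
    · subst h0; simp [pt, h]
    · by_cases h1 : i = Fin.last n
      · subst h1; simp [pt, h.symm]
      · simp [pt, h0, h1]
  simp only [this, Finset.sum_add_distrib, Finset.sum_ite_eq', Finset.mem_univ, if_true]

lemma continuous_pt (n : ℕ) : Continuous (fun p : ℝ × ℝ => pt n p.1 p.2) := by
  unfold pt
  apply (PiLp.continuous_toLp 2 _).comp
  apply continuous_pi
  intro i
  split_ifs <;> fun_prop

lemma abs_jn_le (m : ℕ) (y : ℝ) : |jn m y| ≤ Real.pi := by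
  unfold jn
  have h := intervalIntegral.norm_integral_le_of_norm_le_const (a := 0) (b := Real.pi) (C := 1)
    (f := fun φ => Real.cos (2 * Real.pi * (y * Real.cos φ)) * Real.sin φ ^ (m - 2)) ?_
  · rw [Real.norm_eq_abs, sub_zero, one_mul, abs_of_pos Real.pi_pos] at h
    exact h
  · intro φ _
    rw [norm_mul, norm_pow, Real.norm_eq_abs, Real.norm_eq_abs]
    calc |Real.cos (2 * Real.pi * (y * Real.cos φ))| * |Real.sin φ| ^ (m - 2) ≤ 1 * 1 :=
          mul_le_mul (Real.abs_cos_le_one _) (pow_le_one₀ (abs_nonneg _) (Real.abs_sin_le_one _))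
            (by positivity) zero_le_one
      _ = 1 := by ring

/-- data: `a = (n-1)/2` -/
lemma rpow_aa (n : ℕ) (hn : 2 ≤ n) (ρ : ℝ) (hρ : 0 < ρ) :
    ρ ^ (((n : ℝ) - 1) / 2) * ρ ^ (((n : ℝ) - 1) / 2) = ρ ^ (n - 1) := by
  rw [← Real.rpow_add hρ, ← Real.rpow_natCast]
  congr 1
  push_cast [Nat.cast_sub (by omega : 1 ≤ n)]
  ring

variable {n : ℕ}

lemma integrable_of_bdd_supp {d : ℕ} (f : EE d → ℂ) (hf : AEStronglyMeasurable f volume) (A R : ℝ)
    (hA : ∀ x, ‖f x‖ ≤ A) (hR : ∀ x, R < ‖x‖ → f x = 0) : Integrable f := by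
  have h1 : IntegrableOn f (Metric.closedBall 0 R) :=
    Measure.integrableOn_of_bounded measure_closedBall_lt_top.ne hf
      (Filter.Eventually.of_forall hA)
  rw [← integrableOn_univ]
  apply h1.of_forall_sdiff_eq_zero MeasurableSet.univ
  intro x hx
  apply hR
  have := hx.2
  rw [mem_closedBall_zero_iff] at this
  linarith

lemma integrable_of_bdd_supp2 (f : ℝ × ℝ → ℂ) (hf : AEStronglyMeasurable f volume) (A R : ℝ)
    (hA : ∀ x, ‖f x‖ ≤ A) (hR : ∀ x, R < ‖x‖ → f x = 0) : Integrable f := by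
  have h1 : IntegrableOn f (Metric.closedBall 0 R) :=
    Measure.integrableOn_of_bounded measure_closedBall_lt_top.ne hf
      (Filter.Eventually.of_forall hA)
  rw [← integrableOn_univ]
  apply h1.of_forall_sdiff_eq_zero MeasurableSet.univ
  intro x hx
  apply hR
  have := hx.2
  rw [mem_closedBall_zero_iff] at this
  linarith

/-- properties of the profile -/
lemma FF_props (hn : 2 ≤ n) (A : ℝ) (f : EE (n + 1) → ℂ) (hf : BCd A f) :
    Measurable (FF n f) ∧ ∃ A' R' : ℝ, 0 ≤ A' ∧ 0 ≤ R' ∧ (∀ y, ‖FF n f y‖ ≤ A') ∧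
      ∀ y, FF n f y ≠ 0 → 0 < y.1 ∧ y.1 ≤ R' ∧ ‖y‖ ≤ R' := by
  obtain ⟨hm, hA, R, hR⟩ := hf
  have hA0 : 0 ≤ A := (norm_nonneg _).trans (hA 0)
  have hsupp : ∀ y, FF n f y ≠ 0 → 0 < y.1 ∧ y.1 ≤ |R| ∧ ‖y‖ ≤ |R| := by
    intro y hy
    unfold FF at hy
    split_ifs at hy with h0
    · have h1 : f (pt n y.1 y.2) ≠ 0 := right_ne_zero_of_mul hy
      have h2 : ‖pt n y.1 y.2‖ ≤ |R| := by
        by_contra h
        push Not at h
        exact h1 (hR _ ((le_abs_self R).trans_lt h))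
      have h3 : ‖pt n y.1 y.2‖ ^ 2 ≤ |R| ^ 2 := pow_le_pow_left₀ (norm_nonneg _) h2 2
      rw [norm_pt_sq n hn] at h3
      have h4 : |y.1| ≤ |R| := by
        rw [← Real.sqrt_sq_eq_abs, ← Real.sqrt_sq (abs_nonneg R)]
        apply Real.sqrt_le_sqrt; nlinarith [sq_nonneg y.2]
      have h5 : |y.2| ≤ |R| := by
        rw [← Real.sqrt_sq_eq_abs, ← Real.sqrt_sq (abs_nonneg R)]
        apply Real.sqrt_le_sqrt; nlinarith [sq_nonneg y.1]
      refine ⟨h0, (le_abs_self _).trans h4, ?_⟩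
      rw [Prod.norm_def]
      exact max_le h4 h5
    · exact absurd rfl hy
  refine ⟨?_, |R| ^ (((n : ℝ) - 1) / 2) * A, |R|, by positivity, abs_nonneg _, ?_, hsupp⟩
  · unfold FF
    apply Measurable.ite (measurableSet_lt measurable_const measurable_fst)
    · apply Measurable.mul
      · exact Complex.measurable_ofReal.comp (measurable_fst.pow_const _)
      · exact hm.comp (continuous_pt n).measurable
    · exact measurable_const
  · intro y
    by_cases hy : FF n f y = 0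
    · rw [hy, norm_zero]; positivity
    · obtain ⟨h1, h2, h3⟩ := hsupp y hy
      unfold FF
      rw [if_pos h1, norm_mul, Complex.norm_real, Real.norm_of_nonneg (by positivity)]
      have hn' : (0 : ℝ) ≤ ((n : ℝ) - 1) / 2 := by
        have : (2 : ℝ) ≤ n := by exact_mod_cast hn
        linarith
      exact mul_le_mul (Real.rpow_le_rpow h1.le h2 hn') (hA _) (norm_nonneg _) (by positivity)

lemma abs_bj_le (hn : 2 ≤ n) {v V : ℝ} (hv : 0 ≤ v) (hV : v ≤ V) :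
    |bj n v| ≤ V ^ (((n : ℝ) - 1) / 2) * Real.pi := by
  have hn' : (0 : ℝ) ≤ ((n : ℝ) - 1) / 2 := by
    have : (2 : ℝ) ≤ n := by exact_mod_cast hn
    linarith
  unfold bj
  rw [abs_mul, abs_of_nonneg (by positivity : (0 : ℝ) ≤ v ^ (((n : ℝ) - 1) / 2))]
  exact mul_le_mul (Real.rpow_le_rpow hv hV hn') (abs_jn_le n v) (abs_nonneg _)
    (Real.rpow_nonneg (hv.trans hV) _)

/-- Step A -/
lemma stepA (hn : 2 ≤ n) (Φ : EE n × ℝ ≃ᵐ EE (n + 1)) (hΦ : MeasurePreserving Φ)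
    (hΦ1 : ∀ y z, (Φ (y, z)) (Fin.last n) = z)
    (hΦ2 : ∀ (y y' : EE n) (z z' : ℝ), inner ℝ (Φ (y, z)) (Φ (y', z')) = inner ℝ y y' + z * z')
    (c : ℝ)
    (hRF : ∀ (g : ℝ → ℂ) (ξ : EE n), Measurable g → Integrable (fun x : EE n => g ‖x‖) →
    ∫ x : EE n, e (inner ℝ x ξ) * g ‖x‖ =
      (c : ℂ) * ∫ ρ in Ioi (0 : ℝ), g ρ * ((ρ ^ (n - 1) * jn n (ρ * ‖ξ‖) : ℝ) : ℂ))
    (A : ℝ) (f : EE (n + 1) → ℂ) (hax : Axial f) (hf : BCd A f) (ξ : EE n) (η : ℝ) :
    ((‖ξ‖ ^ (((n : ℝ) - 1) / 2) : ℝ) : ℂ) * 𝓕 f (Φ (ξ, η)) = c * PH n (FF n f) (‖ξ‖, η) := by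
  set a : ℝ := ((n : ℝ) - 1) / 2 with ha
  have hnorm : ∀ y z, ‖Φ (y, z)‖ ^ 2 = ‖y‖ ^ 2 + z ^ 2 := by
    intro y z
    rw [← real_inner_self_eq_norm_sq, hΦ2, real_inner_self_eq_norm_sq]; ring
  have hfΦ : ∀ y z, f (Φ (y, z)) = f (pt n ‖y‖ z) := by
    intro y z
    apply hax
    · rw [hΦ1, pt_last n hn]
    · have h1 : ‖Φ (y, z)‖ ^ 2 = ‖pt n ‖y‖ z‖ ^ 2 := by rw [hnorm, norm_pt_sq n hn]
      exact (pow_left_inj₀ (norm_nonneg _) (norm_nonneg _) (by norm_num)).1 h1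
  have hf' := hf
  obtain ⟨hm, hA, R, hR⟩ := hf
  have hfi : Integrable f := integrable_of_bdd_supp f hm.aestronglyMeasurable A R hA hR
  have hgi : ∀ z : ℝ, Integrable (fun y : EE n => f (pt n ‖y‖ z)) := by
    intro z
    apply integrable_of_bdd_supp _ _ A |R| (fun y => hA _)
    · intro y hy
      apply hR
      have h1 : ‖pt n ‖y‖ z‖ ^ 2 = ‖y‖ ^ 2 + z ^ 2 := norm_pt_sq n hn _ _
      have h2 : |R| < ‖pt n ‖y‖ z‖ := by
        apply lt_of_pow_lt_pow_left₀ 2 (norm_nonneg _)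
        rw [h1]
        have := pow_lt_pow_left₀ hy (abs_nonneg R) (by norm_num : (2 : ℕ) ≠ 0)
        nlinarith [sq_nonneg z]
      exact (le_abs_self R).trans_lt h2
    · exact (hm.comp ((continuous_pt n).measurable.comp
        (f := fun y : EE n => (‖y‖, z)) (by fun_prop))).aestronglyMeasurable
  have h1 : 𝓕 f (Φ (ξ, η)) = ∫ z : ℝ, e (-(z * η)) *
      ((c : ℂ) * ∫ ρ in Ioi (0 : ℝ), f (pt n ρ z) * ((ρ ^ (n - 1) * jn n (ρ * ‖ξ‖) : ℝ) : ℂ)) := by
    rw [fourier_eq_e, ← hΦ.integral_comp' (g := fun v => e (-(inner ℝ v (Φ (ξ, η)))) * f v)]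
    have hint : Integrable (fun p : EE n × ℝ => e (-(inner ℝ (Φ p) (Φ (ξ, η)))) * f (Φ p)) := by
      have h2 : Integrable (fun v => e (-(inner ℝ v (Φ (ξ, η)))) * f v) := by
        apply hfi.bdd_mul (c := 1)
        · exact (continuous_e.comp (by fun_prop)).aestronglyMeasurable
        · exact Filter.Eventually.of_forall (fun v => (norm_e _).le)
      exact (hΦ.integrable_comp_emb Φ.measurableEmbedding).2 h2
    rw [Measure.volume_eq_prod] at hint ⊢
    rw [integral_prod_symm _ hint]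
    congr 1
    funext z
    rw [← norm_neg ξ, ← hRF (fun ρ => f (pt n ρ z)) (-ξ)
      (hm.comp ((continuous_pt n).measurable.comp (f := fun ρ : ℝ => (ρ, z)) (by fun_prop))) (hgi z),
      ← integral_const_mul]
    congr 1
    funext y
    rw [hfΦ, hΦ2, inner_neg_right, ← mul_assoc, ← e_add]
    congr 2
    ring
  obtain ⟨hFm, A', R', hA'0, hR'0, hA', hS⟩ := FF_props hn A f hf'
  have h2 : PH n (FF n f) (‖ξ‖, η) = ∫ z : ℝ, e (-(z * η)) *
      ∫ ρ in Ioi (0 : ℝ), FF n f (ρ, z) * ((bj n (ρ * ‖ξ‖) : ℝ) : ℂ) := by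
    unfold PH
    have hint : Integrable (fun y : ℝ × ℝ => e (-(y.2 * (‖ξ‖, η).2)) * FF n f y *
        ((bj n (y.1 * (‖ξ‖, η).1) : ℝ) : ℂ)) := by
      apply integrable_of_bdd_supp2 _ _ (A' * ((R' * ‖ξ‖) ^ a * Real.pi)) R'
      · intro y
        by_cases hy : FF n f y = 0
        · rw [hy]; simp only [mul_zero, zero_mul, norm_zero]; positivity
        · obtain ⟨g1, g2, g3⟩ := hS y hy
          rw [norm_mul, norm_mul, norm_e, one_mul, Complex.norm_real, Real.norm_eq_abs]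
          apply mul_le_mul (hA' y) _ (abs_nonneg _) hA'0
          exact abs_bj_le hn (by positivity) (by
            show y.1 * ‖ξ‖ ≤ R' * ‖ξ‖
            gcongr)
      · intro y hy
        have : FF n f y = 0 := by
          by_contra h
          have := (hS y h).2.2
          linarith
        rw [this]; ring
      · apply Measurable.aestronglyMeasurable
        apply Measurable.mul
        · apply Measurable.mul
          · exact measurable_e.comp (by fun_prop)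
          · exact hFm
        · exact Complex.measurable_ofReal.comp ((measurable_bj n).comp (by fun_prop))
    rw [Measure.volume_eq_prod] at hint ⊢
    rw [integral_prod_symm _ hint]
    congr 1
    funext z
    rw [← integral_const_mul, ← integral_indicator measurableSet_Ioi]
    congr 1
    funext ρ
    by_cases hρ : ρ ∈ Ioi (0 : ℝ)
    · rw [indicator_of_mem hρ]
      show e (-(z * η)) * FF n f (ρ, z) * ((bj n (ρ * ‖ξ‖) : ℝ) : ℂ) = _
      ring
    · rw [indicator_of_notMem hρ]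
      have : FF n f (ρ, z) = 0 := by
        unfold FF
        rw [if_neg (by simpa using hρ)]
      show e (-(z * η)) * FF n f (ρ, z) * ((bj n (ρ * ‖ξ‖) : ℝ) : ℂ) = 0
      rw [this]; ring
  rw [h1, h2, ← integral_const_mul, ← integral_const_mul]
  congr 1
  funext z
  rw [show ((‖ξ‖ ^ a : ℝ) : ℂ) * (e (-(z * η)) * ((c : ℂ) * ∫ ρ in Ioi (0 : ℝ), f (pt n ρ z) *
      ((ρ ^ (n - 1) * jn n (ρ * ‖ξ‖) : ℝ) : ℂ))) = c * (e (-(z * η)) * (((‖ξ‖ ^ a : ℝ) : ℂ) *
      ∫ ρ in Ioi (0 : ℝ), f (pt n ρ z) * ((ρ ^ (n - 1) * jn n (ρ * ‖ξ‖) : ℝ) : ℂ))) by ring,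
    ← integral_const_mul]
  congr 2
  apply setIntegral_congr_fun measurableSet_Ioi
  intro ρ hρ
  rw [mem_Ioi] at hρ
  show ((‖ξ‖ ^ a : ℝ) : ℂ) * (f (pt n ρ z) * ((ρ ^ (n - 1) * jn n (ρ * ‖ξ‖) : ℝ) : ℂ)) =
    FF n f (ρ, z) * ((bj n (ρ * ‖ξ‖) : ℝ) : ℂ)
  unfold FF bj
  rw [if_pos hρ, Real.mul_rpow hρ.le (norm_nonneg _), ← ha, ← rpow_aa n hn ρ hρ, ← ha]
  push_cast
  ring

lemma measurable_PH (F : ℝ × ℝ → ℂ) (hF : Measurable F) : Measurable (PH n F) := by
  unfold PH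
  have : StronglyMeasurable (fun ζ : ℝ × ℝ =>
      ∫ y : ℝ × ℝ, e (-(y.2 * ζ.2)) * F y * ((bj n (y.1 * ζ.1) : ℝ) : ℂ)) := by
    apply StronglyMeasurable.integral_prod_right
      (f := fun (ζ : ℝ × ℝ) (y : ℝ × ℝ) => e (-(y.2 * ζ.2)) * F y * ((bj n (y.1 * ζ.1) : ℝ) : ℂ))
    apply Measurable.stronglyMeasurable
    apply Measurable.mul
    · apply Measurable.mul
      · exact measurable_e.comp (by fun_prop)
      · exact hF.comp measurable_snd
    · exact Complex.measurable_ofReal.comp ((measurable_bj n).comp (by fun_prop))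
  exact this.measurable

lemma PH_bdd (hn : 2 ≤ n) (F : ℝ × ℝ → ℂ) (A' R' : ℝ) (hA'0 : 0 ≤ A') (hR'0 : 0 ≤ R')
    (hA' : ∀ y, ‖F y‖ ≤ A') (hS : ∀ y, F y ≠ 0 → 0 < y.1 ∧ y.1 ≤ R' ∧ ‖y‖ ≤ R') (L : ℝ) (hL : 0 ≤ L) :
    ∃ B : ℝ, 0 ≤ B ∧ ∀ ζ : ℝ × ℝ, 0 ≤ ζ.1 → ζ.1 ≤ L → ‖PH n F ζ‖ ≤ B := by
  set K : ℝ := A' * ((R' * L) ^ (((n : ℝ) - 1) / 2) * Real.pi) with hK
  have hK0 : 0 ≤ K := by positivity
  refine ⟨∫ y : ℝ × ℝ, (Metric.closedBall (0 : ℝ × ℝ) R').indicator (fun _ => K) y, ?_, ?_⟩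
  · apply integral_nonneg
    intro y
    exact indicator_nonneg (fun _ _ => hK0) y
  · intro ζ h0 h1
    unfold PH
    apply norm_integral_le_of_norm_le
    · rw [integrable_indicator_iff Metric.isClosed_closedBall.measurableSet]
      exact integrableOn_const measure_closedBall_lt_top.ne
    · apply Filter.Eventually.of_forall
      intro y
      by_cases hy : F y = 0
      · rw [hy]; simp only [mul_zero, zero_mul, norm_zero]
        exact indicator_nonneg (fun _ _ => hK0) y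
      · obtain ⟨g1, g2, g3⟩ := hS y hy
        rw [indicator_of_mem (by rw [mem_closedBall_zero_iff]; exact g3)]
        rw [norm_mul, norm_mul, norm_e, one_mul, Complex.norm_real, Real.norm_eq_abs]
        apply mul_le_mul (hA' y) _ (abs_nonneg _) hA'0
        exact abs_bj_le hn (by positivity) (by gcongr)

lemma hor_nonneg (x : EE (n + 1)) : 0 ≤ hor x := Real.sqrt_nonneg _

theorem red1 (hSPL : T_SPL) (hRF : T_RF) : T_RED1 := by
  intro n hn
  obtain ⟨Φ, hΦ, hΦ1, hΦ2⟩ := hSPL n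
  obtain ⟨c, hc, -, hRF⟩ := hRF n hn
  refine ⟨c ^ 2, by positivity, ?_⟩
  intro lam Lam t A f hlam hLam hax hf x
  set a : ℝ := ((n : ℝ) - 1) / 2 with ha
  have ha0 : 0 ≤ a := by
    have : (2 : ℝ) ≤ n := by exact_mod_cast hn
    rw [ha]; linarith
  obtain ⟨⟨x', z₀⟩, rfl⟩ := Φ.surjective x
  have hnorm : ∀ y z, ‖Φ (y, z)‖ ^ 2 = ‖y‖ ^ 2 + z ^ 2 := by
    intro y z
    rw [← real_inner_self_eq_norm_sq, hΦ2, real_inner_self_eq_norm_sq]; ring
  have hnorm' : ∀ y z, ‖Φ (y, z)‖ = Real.sqrt (‖y‖ ^ 2 + z ^ 2) := by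
    intro y z
    rw [← hnorm, Real.sqrt_sq (norm_nonneg _)]
  have hhor : ∀ y z, hor (Φ (y, z)) = ‖y‖ := by
    intro y z
    unfold hor
    rw [hnorm, hΦ1, add_sub_cancel_right, Real.sqrt_sq (norm_nonneg _)]
  rw [hhor, hΦ1]
  obtain ⟨hFm, A', R', hA'0, hR'0, hA', hS⟩ := FF_props hn A f hf
  have hPHm : Measurable (PH n (FF n f)) := measurable_PH _ hFm
  obtain ⟨B, hB0, hB⟩ := PH_bdd hn (FF n f) A' R' hA'0 hR'0 hA' hS (2 * Lam) (by positivity)
  have hA1 := stepA hn Φ hΦ hΦ1 hΦ2 c hRF A f hax hf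
  obtain ⟨hm, hA, R, hR⟩ := hf
  have hfi : Integrable f := integrable_of_bdd_supp f hm.aestronglyMeasurable A R hA hR
  have hchim : Measurable chi := contDiff_chi.continuous.measurable
  -- the symbol
  let M : ℝ → ℝ → ℂ := fun s η => e (t * Real.sqrt (s ^ 2 + η ^ 2)) *
    ((chi (Real.sqrt (s ^ 2 + η ^ 2) / lam) * chi (s / Lam) : ℝ) : ℂ)
  have hMm : Measurable (fun q : ℝ × ℝ => M q.1 q.2) := by
    apply Measurable.mul
    · exact measurable_e.comp (by fun_prop)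
    · apply Complex.measurable_ofReal.comp
      exact (hchim.comp (by fun_prop)).mul (hchim.comp (by fun_prop))
  have hM1 : ∀ s η, ‖M s η‖ ≤ 1 := by
    intro s η
    show ‖e (t * Real.sqrt (s ^ 2 + η ^ 2)) *
      ((chi (Real.sqrt (s ^ 2 + η ^ 2) / lam) * chi (s / Lam) : ℝ) : ℂ)‖ ≤ 1
    rw [norm_mul, norm_e, one_mul, Complex.norm_real, Real.norm_eq_abs, abs_mul]
    calc _ ≤ (1 : ℝ) * 1 := mul_le_mul (abs_chi_le _) (abs_chi_le _) (abs_nonneg _) zero_le_one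
      _ = 1 := by ring
  have hMs : ∀ s η, M s η ≠ 0 → Lam / 2 ≤ s ∧ s ≤ 2 * Lam ∧ Real.sqrt (s ^ 2 + η ^ 2) ≤ 2 * lam := by
    intro s η h
    have h1 : chi (Real.sqrt (s ^ 2 + η ^ 2) / lam) * chi (s / Lam) ≠ 0 := by
      intro h0
      apply h
      show e (t * Real.sqrt (s ^ 2 + η ^ 2)) *
        ((chi (Real.sqrt (s ^ 2 + η ^ 2) / lam) * chi (s / Lam) : ℝ) : ℂ) = 0
      rw [h0]; simp
    have h2 := chi_support (right_ne_zero_of_mul h1)
    have h3 := chi_support (left_ne_zero_of_mul h1)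
    rw [le_div_iff₀ hLam, div_le_iff₀ hLam] at h2
    rw [div_le_iff₀ hlam] at h3
    refine ⟨by linarith [h2.1], h2.2, h3.2⟩
  -- the radial function
  let G : ℝ → ℝ → ℂ := fun η s => M s η * ((s ^ (-a) : ℝ) : ℂ) * PH n (FF n f) (s, η)
  have hGm : ∀ η, Measurable (G η) := by
    intro η
    apply Measurable.mul
    · apply Measurable.mul
      · exact hMm.comp (f := fun s : ℝ => (s, η)) (by fun_prop)
      · exact Complex.measurable_ofReal.comp (measurable_id.pow_const _)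
    · exact hPHm.comp (by fun_prop)
  have hGz : ∀ η s, G η s ≠ 0 → Lam / 2 ≤ s ∧ s ≤ 2 * Lam := by
    intro η s h
    have h1 : M s η ≠ 0 := left_ne_zero_of_mul (left_ne_zero_of_mul h)
    exact ⟨(hMs s η h1).1, (hMs s η h1).2.1⟩
  have hGi : ∀ η, Integrable (fun ξ : EE n => G η ‖ξ‖) := by
    intro η
    apply integrable_of_bdd_supp _ _ ((Lam / 2) ^ (-a) * B) (2 * Lam)
    · intro ξ
      by_cases h : G η ‖ξ‖ = 0
      · rw [h, norm_zero]; positivity
      · obtain ⟨h1, h2⟩ := hGz η _ h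
        show ‖M ‖ξ‖ η * ((‖ξ‖ ^ (-a) : ℝ) : ℂ) * PH n (FF n f) (‖ξ‖, η)‖ ≤ _
        rw [norm_mul, norm_mul, Complex.norm_real, Real.norm_of_nonneg (by positivity)]
        apply mul_le_mul _ (hB _ (norm_nonneg _) h2) (norm_nonneg _) (by positivity)
        calc ‖M ‖ξ‖ η‖ * ‖ξ‖ ^ (-a) ≤ 1 * (Lam / 2) ^ (-a) := by
              apply mul_le_mul (hM1 _ _) _ (by positivity) zero_le_one
              exact Real.rpow_le_rpow_of_nonpos (by positivity) h1 (by linarith)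
          _ = _ := by ring
    · intro ξ hξ
      by_contra h
      have := (hGz η _ h).2
      linarith
    · exact ((hGm η).comp measurable_norm).aestronglyMeasurable
  have hMF : ∀ (ξ : EE n) (η : ℝ), M ‖ξ‖ η * 𝓕 f (Φ (ξ, η)) = c * G η ‖ξ‖ := by
    intro ξ η
    by_cases h : M ‖ξ‖ η = 0
    · show _ = c * (M ‖ξ‖ η * ((‖ξ‖ ^ (-a) : ℝ) : ℂ) * PH n (FF n f) (‖ξ‖, η))
      rw [h]; ring
    · have h1 := (hMs _ _ h).1
      have h2 : 0 < ‖ξ‖ := by linarith
      have h3 := hA1 ξ η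
      have h4 : ((‖ξ‖ ^ (-a) : ℝ) : ℂ) * ((‖ξ‖ ^ a : ℝ) : ℂ) = 1 := by
        rw [← Complex.ofReal_mul, ← Real.rpow_add h2]; simp
      show _ = c * (M ‖ξ‖ η * ((‖ξ‖ ^ (-a) : ℝ) : ℂ) * PH n (FF n f) (‖ξ‖, η))
      calc M ‖ξ‖ η * 𝓕 f (Φ (ξ, η)) = M ‖ξ‖ η * ((((‖ξ‖ ^ (-a) : ℝ) : ℂ) * ((‖ξ‖ ^ a : ℝ) : ℂ)) *
            𝓕 f (Φ (ξ, η))) := by rw [h4, one_mul]
        _ = M ‖ξ‖ η * (((‖ξ‖ ^ (-a) : ℝ) : ℂ) * (((‖ξ‖ ^ a : ℝ) : ℂ) * 𝓕 f (Φ (ξ, η)))) := by ring
        _ = _ := by rw [h3]; ring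
  -- the multiplier
  have hMM : MM (fun ξ : EE (n + 1) => e (t * ‖ξ‖) *
      ((chi (‖ξ‖ / lam) * chi (hor ξ / Lam) : ℝ) : ℂ)) f (Φ (x', z₀)) =
      ∫ η : ℝ, e (z₀ * η) * (c * (c * ∫ s in Ioi (0 : ℝ), G η s *
        ((s ^ (n - 1) * jn n (s * ‖x'‖) : ℝ) : ℂ))) := by
    unfold MM
    rw [← hΦ.integral_comp' (g := fun ξ => e (inner ℝ (Φ (x', z₀)) ξ) * ((e (t * ‖ξ‖) *
      ((chi (‖ξ‖ / lam) * chi (hor ξ / Lam) : ℝ) : ℂ)) * 𝓕 f ξ))]
    have hint : Integrable (fun p : EE n × ℝ => e (inner ℝ (Φ (x', z₀)) (Φ p)) * ((e (t * ‖Φ p‖) *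
        ((chi (‖Φ p‖ / lam) * chi (hor (Φ p) / Lam) : ℝ) : ℂ)) * 𝓕 f (Φ p))) := by
      have h2 : Integrable (fun ξ : EE (n + 1) => e (inner ℝ (Φ (x', z₀)) ξ) * ((e (t * ‖ξ‖) *
          ((chi (‖ξ‖ / lam) * chi (hor ξ / Lam) : ℝ) : ℂ)) * 𝓕 f ξ)) := by
        apply integrable_of_bdd_supp _ _ (∫ v, ‖f v‖) (2 * lam)
        · intro ξ
          rw [norm_mul, norm_e, one_mul, norm_mul, norm_mul, norm_e, one_mul, Complex.norm_real,
            Real.norm_eq_abs, abs_mul]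
          have h3 : ‖𝓕 f ξ‖ ≤ ∫ v, ‖f v‖ := by
            rw [fourier_eq_e]
            refine (norm_integral_le_integral_norm _).trans (le_of_eq ?_)
            congr 1; funext v
            rw [norm_mul, norm_e, one_mul]
          calc |chi (‖ξ‖ / lam)| * |chi (hor ξ / Lam)| * ‖𝓕 f ξ‖ ≤ (1 * 1) * ∫ v, ‖f v‖ := by
                apply mul_le_mul _ h3 (norm_nonneg _) (by norm_num)
                exact mul_le_mul (abs_chi_le _) (abs_chi_le _) (abs_nonneg _) zero_le_one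
            _ = _ := by ring
        · intro ξ hξ
          have : chi (‖ξ‖ / lam) = 0 := by
            by_contra h
            have := (chi_support h).2
            rw [div_le_iff₀ hlam] at this
            linarith
          rw [this]; simp
        · apply AEStronglyMeasurable.mul
          · exact (continuous_e.comp (by fun_prop)).aestronglyMeasurable
          · apply AEStronglyMeasurable.mul
            · apply AEStronglyMeasurable.mul
              · exact (continuous_e.comp (by fun_prop)).aestronglyMeasurable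
              · apply Continuous.aestronglyMeasurable
                apply Complex.continuous_ofReal.comp
                apply Continuous.mul
                · exact contDiff_chi.continuous.comp (by fun_prop)
                · apply contDiff_chi.continuous.comp
                  unfold hor
                  fun_prop
            · have h9 : 𝓕 f = fun ξ => ∫ v, e (-(inner ℝ v ξ)) * f v := funext (fourier_eq_e f)
              rw [h9]
              apply StronglyMeasurable.aestronglyMeasurable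
              apply StronglyMeasurable.integral_prod_right
                (f := fun (ξ : EE (n + 1)) (v : EE (n + 1)) => e (-(inner ℝ v ξ)) * f v)
              apply Measurable.stronglyMeasurable
              apply Measurable.mul
              · exact (continuous_e.comp (by fun_prop)).measurable
              · exact hm.comp measurable_snd
      exact (hΦ.integrable_comp_emb Φ.measurableEmbedding).2 h2
    rw [Measure.volume_eq_prod] at hint ⊢
    rw [integral_prod_symm _ hint]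
    congr 1
    funext η
    have h5 := hRF (G η) x' (hGm η) (hGi η)
    rw [← h5, ← integral_const_mul, ← integral_const_mul]
    congr 1
    funext ξ
    rw [hΦ2, hhor, hnorm', e_add, real_inner_comm]
    have h6 := hMF ξ η
    calc e (inner ℝ ξ x') * e (z₀ * η) * (M ‖ξ‖ η * 𝓕 f (Φ (ξ, η)))
        = e (inner ℝ ξ x') * e (z₀ * η) * (c * G η ‖ξ‖) := by rw [h6]
      _ = _ := by ring
  -- the profile evolution
  have hPU : PU n lam Lam t (FF n f) (‖x'‖, z₀) = ∫ η : ℝ, ∫ s in Ioi (0 : ℝ),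
      e (z₀ * η + t * Real.sqrt (s ^ 2 + η ^ 2)) *
      ((chi (Real.sqrt (s ^ 2 + η ^ 2) / lam) * chi (s / Lam) * bj n (‖x'‖ * s) : ℝ) : ℂ) *
      PH n (FF n f) (s, η) := by
    unfold PU
    let K : ℝ × ℝ → ℂ := fun ζ => e (z₀ * ζ.2 + t * Real.sqrt (ζ.1 ^ 2 + ζ.2 ^ 2)) *
      ((chi (Real.sqrt (ζ.1 ^ 2 + ζ.2 ^ 2) / lam) * chi (ζ.1 / Lam) * bj n (‖x'‖ * ζ.1) : ℝ) : ℂ) *
      PH n (FF n f) ζ
    have hKz : ∀ ζ, K ζ ≠ 0 → 0 < ζ.1 ∧ ζ.1 ≤ 2 * Lam ∧ ‖ζ‖ ≤ 2 * lam := by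
      intro ζ h
      have h1 : chi (Real.sqrt (ζ.1 ^ 2 + ζ.2 ^ 2) / lam) * chi (ζ.1 / Lam) * bj n (‖x'‖ * ζ.1) ≠ 0 := by
        intro h0
        apply h
        show e (z₀ * ζ.2 + t * Real.sqrt (ζ.1 ^ 2 + ζ.2 ^ 2)) *
          ((chi (Real.sqrt (ζ.1 ^ 2 + ζ.2 ^ 2) / lam) * chi (ζ.1 / Lam) *
            bj n (‖x'‖ * ζ.1) : ℝ) : ℂ) * PH n (FF n f) ζ = 0
        rw [h0]; simp
      have h2 := chi_support (right_ne_zero_of_mul (left_ne_zero_of_mul h1))
      have h3 := chi_support (left_ne_zero_of_mul (left_ne_zero_of_mul h1))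
      rw [le_div_iff₀ hLam, div_le_iff₀ hLam] at h2
      rw [div_le_iff₀ hlam] at h3
      refine ⟨by linarith [h2.1], h2.2, ?_⟩
      have h4 : |ζ.1| ≤ Real.sqrt (ζ.1 ^ 2 + ζ.2 ^ 2) := by
        rw [← Real.sqrt_sq_eq_abs]; apply Real.sqrt_le_sqrt; nlinarith [sq_nonneg ζ.2]
      have h5 : |ζ.2| ≤ Real.sqrt (ζ.1 ^ 2 + ζ.2 ^ 2) := by
        rw [← Real.sqrt_sq_eq_abs]; apply Real.sqrt_le_sqrt; nlinarith [sq_nonneg ζ.1]
      rw [Prod.norm_def]
      exact max_le (h4.trans h3.2) (h5.trans h3.2)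
    have hKi : Integrable K := by
      apply integrable_of_bdd_supp2 _ _ (((‖x'‖ * (2 * Lam)) ^ a * Real.pi) * B) (2 * lam)
      · intro ζ
        by_cases h : K ζ = 0
        · rw [h, norm_zero]; positivity
        · obtain ⟨h1, h2, h3⟩ := hKz ζ h
          show ‖e (z₀ * ζ.2 + t * Real.sqrt (ζ.1 ^ 2 + ζ.2 ^ 2)) *
            ((chi (Real.sqrt (ζ.1 ^ 2 + ζ.2 ^ 2) / lam) * chi (ζ.1 / Lam) *
            bj n (‖x'‖ * ζ.1) : ℝ) : ℂ) * PH n (FF n f) ζ‖ ≤ _
          rw [norm_mul, norm_mul, norm_e, one_mul, Complex.norm_real, Real.norm_eq_abs, abs_mul,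
            abs_mul]
          apply mul_le_mul _ (hB ζ h1.le h2) (norm_nonneg _) (by positivity)
          calc |chi (Real.sqrt (ζ.1 ^ 2 + ζ.2 ^ 2) / lam)| * |chi (ζ.1 / Lam)| * |bj n (‖x'‖ * ζ.1)|
              ≤ (1 * 1) * ((‖x'‖ * (2 * Lam)) ^ a * Real.pi) := by
                apply mul_le_mul _ _ (abs_nonneg _) (by norm_num)
                · exact mul_le_mul (abs_chi_le _) (abs_chi_le _) (abs_nonneg _) zero_le_one
                · exact abs_bj_le hn (by positivity) (by gcongr)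
            _ = _ := by ring
      · intro ζ hζ
        by_contra h
        have := (hKz ζ h).2.2
        linarith
      · apply Measurable.aestronglyMeasurable
        apply Measurable.mul
        · apply Measurable.mul
          · exact measurable_e.comp (by fun_prop)
          · apply Complex.measurable_ofReal.comp
            apply Measurable.mul
            · exact (hchim.comp (by fun_prop)).mul (hchim.comp (by fun_prop))
            · exact (measurable_bj n).comp (by fun_prop)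
        · exact hPHm
    show ∫ ζ in {ζ : ℝ × ℝ | 0 < ζ.1}, K ζ = _
    rw [setIntegral_eq_integral_of_forall_compl_eq_zero]
    · rw [Measure.volume_eq_prod] at hKi ⊢
      rw [integral_prod_symm _ hKi]
      congr 1
      funext η
      rw [setIntegral_eq_integral_of_forall_compl_eq_zero]
      intro s hs
      by_contra h
      exact hs (hKz (s, η) h).1
    · intro ζ hζ
      by_contra h
      exact hζ (hKz ζ h).1
  rw [hMM, hPU, ← integral_const_mul, ← integral_const_mul]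
  congr 1
  funext η
  rw [show ((‖x'‖ ^ a : ℝ) : ℂ) * (e (z₀ * η) * (c * (c * ∫ s in Ioi (0 : ℝ), G η s *
      ((s ^ (n - 1) * jn n (s * ‖x'‖) : ℝ) : ℂ)))) = (((‖x'‖ ^ a : ℝ) : ℂ) * (e (z₀ * η) * (c * c))) *
      ∫ s in Ioi (0 : ℝ), G η s * ((s ^ (n - 1) * jn n (s * ‖x'‖) : ℝ) : ℂ) by ring,
    ← integral_const_mul, ← integral_const_mul]
  apply setIntegral_congr_fun measurableSet_Ioi
  intro s hs
  rw [mem_Ioi] at hs
  show (((‖x'‖ ^ a : ℝ) : ℂ) * (e (z₀ * η) * (c * c))) * ((e (t * Real.sqrt (s ^ 2 + η ^ 2)) *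
    ((chi (Real.sqrt (s ^ 2 + η ^ 2) / lam) * chi (s / Lam) : ℝ) : ℂ) * ((s ^ (-a) : ℝ) : ℂ) *
    PH n (FF n f) (s, η)) * ((s ^ (n - 1) * jn n (s * ‖x'‖) : ℝ) : ℂ)) =
    ((c ^ 2 : ℝ) : ℂ) * (e (z₀ * η + t * Real.sqrt (s ^ 2 + η ^ 2)) *
      ((chi (Real.sqrt (s ^ 2 + η ^ 2) / lam) * chi (s / Lam) * bj n (‖x'‖ * s) : ℝ) : ℂ) *
      PH n (FF n f) (s, η))
  have h7 : s ^ (-a) * s ^ (n - 1) = s ^ a := by
    rw [← rpow_aa n hn s hs, ← ha, ← Real.rpow_add hs, ← Real.rpow_add hs]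
    congr 1; ring
  have h8 : ((s ^ (-a) : ℝ) : ℂ) * ((s ^ (n - 1) : ℝ) : ℂ) = ((s ^ a : ℝ) : ℂ) := by
    rw [← Complex.ofReal_mul, h7]
  unfold bj
  rw [Real.mul_rpow (norm_nonneg _) hs.le, ← ha, e_add, mul_comm ‖x'‖ s]
  calc _ = (((‖x'‖ ^ a : ℝ) : ℂ) * (e (z₀ * η) * (c * c))) * (e (t * Real.sqrt (s ^ 2 + η ^ 2)) *
    ((chi (Real.sqrt (s ^ 2 + η ^ 2) / lam) * chi (s / Lam) : ℝ) : ℂ) *
    PH n (FF n f) (s, η)) * ((((s ^ (-a) : ℝ) : ℂ) * ((s ^ (n - 1) : ℝ) : ℂ)) *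
      ((jn n (s * ‖x'‖) : ℝ) : ℂ)) := by push_cast; ring
    _ = _ := by rw [h8]; push_cast; ring

end Pool.Agent.H57.LS
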