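import Pool.Agent.H57.LS.GBase

/-!
Module GB: bounds for `GG`.
-/

set_option autoImplicit false

namespace Pool.Agent.H57.LS

open Pool.Agent.H83.LS MeasureTheory Set
open scoped ENNReal NNReal

lemma measurable_GG (n : ℕ) (Lam : ℝ) (F : ℝ × ℝ → ℂ) (hF : Measurable F) :
    Measurable (GG n Lam F) := by
  unfold GG
  have hk := measurable_kp n (fun σ => ((chi σ : ℝ) : ℂ))
    (Complex.measurable_ofReal.comp contDiff_chi.continuous.measurable)
  have : StronglyMeasurable (fun x : ℝ × ℝ => ∫ ρ in Ioi (0 : ℝ),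
      ((Lam : ℝ) : ℂ) * kp n (fun σ => ((chi σ : ℝ) : ℂ)) (Lam * x.1) (Lam * ρ) *
        F (ρ, x.2)) := by
    apply StronglyMeasurable.integral_prod_right
      (f := fun (x : ℝ × ℝ) (ρ : ℝ) =>
        ((Lam : ℝ) : ℂ) * kp n (fun σ => ((chi σ : ℝ) : ℂ)) (Lam * x.1) (Lam * ρ) * F (ρ, x.2))
    apply Measurable.stronglyMeasurable
    apply Measurable.mul
    · apply Measurable.const_mul
      exact hk.comp (f := fun q : (ℝ × ℝ) × ℝ => (Lam * q.1.1, Lam * q.2)) (by fun_prop)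
    · exact hF.comp (by fun_prop)
  exact this.measurable

/-- consequences of a pointwise kernel bound -/
lemma GG_bounds (hY : T_YG) (n : ℕ) (Lam A : ℝ) (F : ℝ × ℝ → ℂ) (hL : 0 < Lam) (hF : PF A F)
    (c : ℝ) (hc : 0 ≤ c) (S : Set (ℝ × ℝ)) (hS : MeasurableSet S)
    (hk : ∀ x ∈ S, ∀ ρ : ℝ, 0 < ρ → F (ρ, x.2) ≠ 0 →
      Lam * ‖kp n (fun σ => ((chi σ : ℝ) : ℂ)) (Lam * x.1) (Lam * ρ)‖ ≤
        c * (Lam * (1 + (Lam * (x.1 - ρ)) ^ 2)⁻¹ + Lam * (1 + (Lam * (x.1 + ρ)) ^ 2)⁻¹)) :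
    (∀ x ∈ S, ‖GG n Lam F x‖ ≤ 2 * Real.pi * c * A) ∧
    (∀ p : ℝ, 1 ≤ p → ∫⁻ x in S, ‖GG n Lam F x‖ₑ ^ p ≤
      ENNReal.ofReal (2 * Real.pi * c) ^ p * ∫⁻ y, ‖F y‖ₑ ^ p) := by
  obtain ⟨hFm, hFA, hF0, R, hFR⟩ := hF
  have hA : 0 ≤ A := (norm_nonneg _).trans (hFA 0)
  set κ : ℝ → ℝ≥0∞ := fun u => ENNReal.ofReal c * ck Lam u with hκ
  have hκm : Measurable κ := (measurable_ck Lam).const_mul _
  have hκI : ∫⁻ u, κ u = ENNReal.ofReal (Real.pi * c) := by
    rw [hκ, lintegral_const_mul' _ _ ENNReal.ofReal_ne_top, lintegral_ck Lam hL,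
      ← ENNReal.ofReal_mul hc, mul_comm]
  have hκt : ∫⁻ u, κ u ≠ ⊤ := by rw [hκI]; exact ENNReal.ofReal_ne_top
  -- pointwise
  have hpt : ∀ x ∈ S, ‖GG n Lam F x‖ₑ ≤
      ∫⁻ ρ : ℝ, (κ (x.1 - ρ) + κ (x.1 + ρ)) * ‖F (ρ, x.2)‖ₑ := by
    intro x hx
    unfold GG
    refine (enorm_integral_le_lintegral_enorm _).trans ?_
    refine le_trans ?_ (setLIntegral_le_lintegral (Ioi (0 : ℝ)) _)
    apply setLIntegral_mono' measurableSet_Ioi
    intro ρ hρ
    rw [mem_Ioi] at hρ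
    by_cases hz : F (ρ, x.2) = 0
    · rw [hz]; simp
    rw [enorm_mul]
    gcongr
    have h1 := hk x hx ρ hρ hz
    calc ‖((Lam : ℝ) : ℂ) * kp n (fun σ => ((chi σ : ℝ) : ℂ)) (Lam * x.1) (Lam * ρ)‖ₑ
        = ENNReal.ofReal (Lam * ‖kp n (fun σ => ((chi σ : ℝ) : ℂ)) (Lam * x.1) (Lam * ρ)‖) := by
          rw [← ofReal_norm, norm_mul, Complex.norm_real, Real.norm_of_nonneg hL.le]
      _ ≤ ENNReal.ofReal (c * (Lam * (1 + (Lam * (x.1 - ρ)) ^ 2)⁻¹ +
            Lam * (1 + (Lam * (x.1 + ρ)) ^ 2)⁻¹)) := ENNReal.ofReal_le_ofReal h1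
      _ = κ (x.1 - ρ) + κ (x.1 + ρ) := by
          rw [hκ]
          simp only [ck]
          rw [ENNReal.ofReal_mul hc, ENNReal.ofReal_add (by positivity) (by positivity), mul_add]
  refine ⟨?_, ?_⟩
  · intro x hx
    have h1 : ‖GG n Lam F x‖ₑ ≤ ENNReal.ofReal (2 * Real.pi * c * A) := by
      refine (hpt x hx).trans ?_
      calc ∫⁻ ρ : ℝ, (κ (x.1 - ρ) + κ (x.1 + ρ)) * ‖F (ρ, x.2)‖ₑ
          ≤ ∫⁻ ρ : ℝ, (κ (x.1 - ρ) + κ (x.1 + ρ)) * ENNReal.ofReal A := by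
            apply lintegral_mono
            intro ρ
            show (κ (x.1 - ρ) + κ (x.1 + ρ)) * ‖F (ρ, x.2)‖ₑ ≤
              (κ (x.1 - ρ) + κ (x.1 + ρ)) * ENNReal.ofReal A
            gcongr
            rw [← ofReal_norm]
            exact ENNReal.ofReal_le_ofReal (hFA _)
        _ = (∫⁻ ρ : ℝ, (κ (x.1 - ρ) + κ (x.1 + ρ))) * ENNReal.ofReal A := by
            rw [lintegral_mul_const' _ _ ENNReal.ofReal_ne_top]
        _ = (∫⁻ ρ : ℝ, κ (x.1 - ρ)) * ENNReal.ofReal A +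
            (∫⁻ ρ : ℝ, κ (x.1 + ρ)) * ENNReal.ofReal A := by
            rw [lintegral_add_left (by fun_prop), add_mul]
        _ = ENNReal.ofReal (2 * Real.pi * c * A) := by
            rw [lintegral_sub_left_eq_self κ x.1, lintegral_add_left_eq_self κ x.1, hκI,
              ← ENNReal.ofReal_mul (by positivity), ← ENNReal.ofReal_add (by positivity) (by positivity)]
            congr 1; ring
    rw [← ofReal_norm] at h1
    exact (ENNReal.ofReal_le_ofReal_iff (by positivity)).1 h1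
  · intro p hp
    have hS2 := schur hY κ (fun y => ‖F y‖ₑ) p hp hκm hκt hFm.enorm
    calc ∫⁻ x in S, ‖GG n Lam F x‖ₑ ^ p
        ≤ ∫⁻ x in S, (∫⁻ ρ : ℝ, (κ (x.1 - ρ) + κ (x.1 + ρ)) * ‖F (ρ, x.2)‖ₑ) ^ p := by
          apply setLIntegral_mono' hS
          intro x hx
          exact ENNReal.rpow_le_rpow (hpt x hx) (by linarith)
      _ ≤ ∫⁻ x : ℝ × ℝ, (∫⁻ ρ : ℝ, (κ (x.1 - ρ) + κ (x.1 + ρ)) * ‖F (ρ, x.2)‖ₑ) ^ p :=
          setLIntegral_le_lintegral _ _
      _ ≤ _ := hS2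
      _ = ENNReal.ofReal (2 * Real.pi * c) ^ p * ∫⁻ y, ‖F y‖ₑ ^ p := by
          rw [hκI, ← mul_assoc, ← ENNReal.mul_rpow_of_nonneg _ _ (by linarith)]
          congr 2
          rw [show (2 : ℝ≥0∞) = ENNReal.ofReal 2 by norm_num, ← ENNReal.ofReal_mul (by norm_num)]
          congr 1; ring

lemma inv_pow_le {v : ℝ} : ((1 + |v|) ^ 2)⁻¹ ≤ (1 + v ^ 2)⁻¹ := by
  apply inv_anti₀ (by positivity)
  nlinarith [abs_nonneg v, sq_abs v]

theorem gb (hK : T_KAP) (hY : T_YG) : T_GB := by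
  intro n hn
  refine ⟨?_, ?_⟩
  · obtain ⟨M, C, hC⟩ := hK n 2 hn
    obtain ⟨B, hB0, hB⟩ := CB_chi M
    set c : ℝ := |C| * B with hc
    have hc0 : 0 ≤ c := by positivity
    refine ⟨2 * Real.pi * c + (2 * Real.pi * c) ^ 2, by positivity, ?_⟩
    intro Lam A F hL hF
    have hA : 0 ≤ A := (norm_nonneg _).trans (hF.2.1 0)
    have hk : ∀ x ∈ (univ : Set (ℝ × ℝ)), ∀ ρ : ℝ, 0 < ρ → F (ρ, x.2) ≠ 0 →
        Lam * ‖kp n (fun σ => ((chi σ : ℝ) : ℂ)) (Lam * x.1) (Lam * ρ)‖ ≤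
        c * (Lam * (1 + (Lam * (x.1 - ρ)) ^ 2)⁻¹ + Lam * (1 + (Lam * (x.1 + ρ)) ^ 2)⁻¹) := by
      intro x _ ρ hρ _
      have h1 := hC _ B (Lam * x.1) (Lam * ρ) hB (by positivity)
      have h2 : C * B * (((1 + |Lam * x.1 - Lam * ρ|) ^ 2)⁻¹ + ((1 + |Lam * x.1 + Lam * ρ|) ^ 2)⁻¹) ≤
          c * ((1 + (Lam * (x.1 - ρ)) ^ 2)⁻¹ + (1 + (Lam * (x.1 + ρ)) ^ 2)⁻¹) := by
        have h3 : C * B ≤ c := mul_le_mul_of_nonneg_right (le_abs_self C) hB0
        have h4 := inv_pow_le (v := Lam * x.1 - Lam * ρ)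
        have h5 := inv_pow_le (v := Lam * x.1 + Lam * ρ)
        have e1 : Lam * (x.1 - ρ) = Lam * x.1 - Lam * ρ := by ring
        have e2 : Lam * (x.1 + ρ) = Lam * x.1 + Lam * ρ := by ring
        rw [e1, e2]
        calc _ ≤ c * (((1 + |Lam * x.1 - Lam * ρ|) ^ 2)⁻¹ + ((1 + |Lam * x.1 + Lam * ρ|) ^ 2)⁻¹) :=
              mul_le_mul_of_nonneg_right h3 (by positivity)
          _ ≤ _ := mul_le_mul_of_nonneg_left (add_le_add h4 h5) hc0
      calc _ ≤ Lam * (c * ((1 + (Lam * (x.1 - ρ)) ^ 2)⁻¹ + (1 + (Lam * (x.1 + ρ)) ^ 2)⁻¹)) := by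
            gcongr
            exact h1.trans h2
        _ = _ := by ring
    have hb := GG_bounds hY n Lam A F hL hF c hc0 univ MeasurableSet.univ hk
    have hm := measurable_GG n Lam F hF.1
    refine ⟨hm, ?_, ?_, ?_⟩
    · refine ⟨hm.aestronglyMeasurable, ?_⟩
      have h1 := hb.2 1 le_rfl
      simp only [ENNReal.rpow_one, Measure.restrict_univ] at h1
      refine lt_of_le_of_lt h1 (ENNReal.mul_lt_top ENNReal.ofReal_lt_top ?_)
      obtain ⟨hFm, hFA, hF0, R, hFR⟩ := hF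
      calc ∫⁻ y, ‖F y‖ₑ ≤ ∫⁻ y, (Metric.closedBall (0 : ℝ × ℝ) R).indicator
            (fun _ => ENNReal.ofReal A) y := by
            apply lintegral_mono
            intro y
            show ‖F y‖ₑ ≤ _
            by_cases hy : y ∈ Metric.closedBall (0 : ℝ × ℝ) R
            · rw [indicator_of_mem hy, ← ofReal_norm]
              exact ENNReal.ofReal_le_ofReal (hFA y)
            · rw [indicator_of_notMem hy]
              have : F y = 0 := by
                apply hFR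
                rw [mem_closedBall_zero_iff] at hy
                linarith
              rw [this]; simp
        _ = ENNReal.ofReal A * volume (Metric.closedBall (0 : ℝ × ℝ) R) := by
            rw [lintegral_indicator_const Metric.isClosed_closedBall.measurableSet]
        _ < ⊤ := ENNReal.mul_lt_top ENNReal.ofReal_lt_top measure_closedBall_lt_top
    · intro x
      refine (hb.1 x (mem_univ x)).trans ?_
      have : 0 ≤ (2 * Real.pi * c) ^ 2 * A := by positivity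
      nlinarith
    · have h1 := hb.2 2 (by norm_num)
      simp only [Measure.restrict_univ] at h1
      norm_num at h1
      refine h1.trans ?_
      gcongr
      rw [← ENNReal.ofReal_pow (by positivity)]
      apply ENNReal.ofReal_le_ofReal
      have : 0 ≤ 2 * Real.pi * c := by positivity
      linarith
  · intro N
    obtain ⟨M, C, hC⟩ := hK n (N + 2) hn
    obtain ⟨B, hB0, hB⟩ := CB_chi M
    set c₀ : ℝ := |C| * B * 2 ^ N with hc₀
    have hc0 : 0 ≤ c₀ := by positivity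
    refine ⟨2 * Real.pi * c₀ + (2 * Real.pi * c₀) ^ 2, by positivity, ?_⟩
    intro Lam A D F hL hLD hF hFD
    have hA : 0 ≤ A := (norm_nonneg _).trans (hF.2.1 0)
    have hLD0 : 0 < Lam * D := by linarith
    have hD : 0 < D := pos_of_mul_pos_right hLD0 hL.le
    set q : ℝ := (Lam * D) ^ N with hq
    have hq1 : 1 ≤ q := one_le_pow₀ hLD
    have hq0 : 0 < q := by linarith
    set c : ℝ := c₀ / q with hc
    have hcn : 0 ≤ c := by positivity
    set S : Set (ℝ × ℝ) := {x : ℝ × ℝ | |x.1| ≤ D / 2} with hS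
    have hSm : MeasurableSet S := by
      rw [hS]
      exact measurableSet_le (by fun_prop) (by fun_prop)
    have hk : ∀ x ∈ S, ∀ ρ : ℝ, 0 < ρ → F (ρ, x.2) ≠ 0 →
        Lam * ‖kp n (fun σ => ((chi σ : ℝ) : ℂ)) (Lam * x.1) (Lam * ρ)‖ ≤
        c * (Lam * (1 + (Lam * (x.1 - ρ)) ^ 2)⁻¹ + Lam * (1 + (Lam * (x.1 + ρ)) ^ 2)⁻¹) := by
      intro x hx ρ hρ hne
      have hρD : D ≤ ρ := hFD _ hne
      have hx' : |x.1| ≤ D / 2 := hx
      rw [abs_le] at hx'
      have h1 := hC _ B (Lam * x.1) (Lam * ρ) hB (by positivity)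
      have hw : ∀ v : ℝ, Lam * (D / 2) ≤ |v| →
          ((1 + |v|) ^ (N + 2))⁻¹ ≤ 2 ^ N / q * (1 + v ^ 2)⁻¹ := by
        intro v hv
        have h3 : (Lam * D / 2) ^ N ≤ (1 + |v|) ^ N := by
          apply pow_le_pow_left₀ (by positivity)
          have : Lam * D / 2 = Lam * (D / 2) := by ring
          linarith
        have h4 : ((1 + |v|) ^ N)⁻¹ ≤ 2 ^ N / q := by
          rw [div_pow] at h3
          calc ((1 + |v|) ^ N)⁻¹ ≤ ((Lam * D) ^ N / 2 ^ N)⁻¹ := by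
                apply inv_anti₀ (by positivity) h3
            _ = 2 ^ N / q := by rw [inv_div]
        calc ((1 + |v|) ^ (N + 2))⁻¹ = ((1 + |v|) ^ N)⁻¹ * ((1 + |v|) ^ 2)⁻¹ := by
              rw [pow_add, mul_inv]
          _ ≤ 2 ^ N / q * (1 + v ^ 2)⁻¹ :=
              mul_le_mul h4 inv_pow_le (by positivity) (by positivity)
      have h5 : Lam * (D / 2) ≤ |Lam * x.1 - Lam * ρ| := by
        rw [← mul_sub, abs_mul, abs_of_pos hL]
        gcongr
        rw [abs_sub_comm]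
        refine le_trans ?_ (le_abs_self _)
        linarith
      have h6 : Lam * (D / 2) ≤ |Lam * x.1 + Lam * ρ| := by
        rw [← mul_add, abs_mul, abs_of_pos hL]
        gcongr
        refine le_trans ?_ (le_abs_self _)
        linarith
      have h2 : C * B * (((1 + |Lam * x.1 - Lam * ρ|) ^ (N + 2))⁻¹ +
          ((1 + |Lam * x.1 + Lam * ρ|) ^ (N + 2))⁻¹) ≤
          c * ((1 + (Lam * (x.1 - ρ)) ^ 2)⁻¹ + (1 + (Lam * (x.1 + ρ)) ^ 2)⁻¹) := by
        have h3 : C * B ≤ |C| * B := mul_le_mul_of_nonneg_right (le_abs_self C) hB0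
        calc _ ≤ |C| * B * (((1 + |Lam * x.1 - Lam * ρ|) ^ (N + 2))⁻¹ +
              ((1 + |Lam * x.1 + Lam * ρ|) ^ (N + 2))⁻¹) := by gcongr
          _ ≤ |C| * B * (2 ^ N / q * (1 + (Lam * x.1 - Lam * ρ) ^ 2)⁻¹ +
              2 ^ N / q * (1 + (Lam * x.1 + Lam * ρ) ^ 2)⁻¹) := by
              gcongr
              · exact hw _ h5
              · exact hw _ h6
          _ = _ := by rw [hc, hc₀, mul_sub, mul_add]; ring
      calc _ ≤ Lam * (c * ((1 + (Lam * (x.1 - ρ)) ^ 2)⁻¹ + (1 + (Lam * (x.1 + ρ)) ^ 2)⁻¹)) := by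
            gcongr
            exact h1.trans h2
        _ = _ := by ring
    have hb := GG_bounds hY n Lam A F hL hF c hcn S hSm hk
    refine ⟨?_, ?_⟩
    · intro x hx
      refine (hb.1 x hx).trans ?_
      rw [hc]
      have : 2 * Real.pi * (c₀ / q) * A = (2 * Real.pi * c₀) * A / q := by ring
      rw [this]
      gcongr
      have : 0 ≤ (2 * Real.pi * c₀) ^ 2 := by positivity
      linarith
    · have h1 := hb.2 2 (by norm_num)
      norm_num at h1
      refine h1.trans ?_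
      gcongr
      rw [← ENNReal.ofReal_pow (by positivity)]
      apply ENNReal.ofReal_le_ofReal
      rw [hc]
      have h7 : (2 * Real.pi * (c₀ / q)) ^ 2 = (2 * Real.pi * c₀) ^ 2 / q ^ 2 := by ring
      rw [h7]
      calc (2 * Real.pi * c₀) ^ 2 / q ^ 2 ≤ (2 * Real.pi * c₀) ^ 2 / q := by
            apply div_le_div_of_nonneg_left (by positivity) hq0
            nlinarith
        _ ≤ _ := by
            gcongr
            have : 0 ≤ 2 * Real.pi * c₀ := by positivity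
            linarith

end Pool.Agent.H57.LS
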