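import Pool.Agent.H83.LS.Targets1
import Pool.Agent.H83.LS.Basic

/-!
Module LEC: comparison of local energies at nearby times.
-/

set_option autoImplicit false

namespace Pool.Agent.H57.LS

open Pool.Agent.H83.LS MeasureTheory Set
open scoped ENNReal NNReal

lemma En_mono' {r r' : ℝ} (hr : 0 < r) (h : r ≤ r') (y₀ : ℝ × ℝ) (g : ℝ × ℝ → ℂ) :
    En r y₀ g ≤ En r' y₀ g := by
  unfold En
  apply lintegral_mono
  intro y
  have := om_mono hr h (y - y₀)
  show ENNReal.ofReal (om r (y - y₀)) * ‖g y‖ₑ ^ 2 ≤ ENNReal.ofReal (om r' (y - y₀)) * ‖g y‖ₑ ^ 2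
  gcongr

lemma En_scale' {r r' M : ℝ} (hr : 0 < r) (hM : 1 ≤ M) (hr' : 0 < r') (h : r' ≤ M * r)
    (y₀ : ℝ × ℝ) (g : ℝ × ℝ → ℂ) :
    En r' y₀ g ≤ ENNReal.ofReal (M ^ 16) * En r y₀ g := by
  unfold En
  rw [← lintegral_const_mul' _ _ ENNReal.ofReal_ne_top]
  apply lintegral_mono
  intro y
  have h1 := om_scale hr hM hr' h (y - y₀)
  have h2 : ENNReal.ofReal (om r' (y - y₀)) ≤
      ENNReal.ofReal (M ^ 16) * ENNReal.ofReal (om r (y - y₀)) := by
    rw [← ENNReal.ofReal_mul (by positivity)]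
    exact ENNReal.ofReal_le_ofReal h1
  calc ENNReal.ofReal (om r' (y - y₀)) * ‖g y‖ₑ ^ 2
      ≤ (ENNReal.ofReal (M ^ 16) * ENNReal.ofReal (om r (y - y₀))) * ‖g y‖ₑ ^ 2 := by gcongr
    _ = _ := by rw [mul_assoc]

lemma gr_bound (a σ : ℝ) (hσ : |σ| ≤ 3) : |(gr a σ).1| ≤ 9 ∧ |(gr a σ).2| ≤ 9 := by
  have hs : 1 ≤ Real.sqrt (1 + a ^ 2 * σ ^ 2) := by
    rw [show (1 : ℝ) = Real.sqrt 1 by simp]
    apply Real.sqrt_le_sqrt
    nlinarith [mul_nonneg (sq_nonneg a) (sq_nonneg σ), Real.sqrt_one]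
  set q := Real.sqrt (1 + a ^ 2 * σ ^ 2) with hq
  have hσ2 : σ ^ 2 ≤ 9 := by
    have := abs_le.1 hσ
    nlinarith
  have h1 : 0 ≤ hh a σ := by unfold hh; positivity
  have h2 : hh a σ ≤ 9 := by
    unfold hh
    rw [← hq, div_le_iff₀ (by linarith)]
    nlinarith
  have h3 : 0 ≤ σ * dh a σ := by
    unfold dh
    rw [← mul_div_assoc]
    apply div_nonneg (mul_self_nonneg σ) (Real.sqrt_nonneg _)
  have h4 : σ * dh a σ ≤ 9 := by
    unfold dh
    rw [← hq, ← mul_div_assoc, div_le_iff₀ (by linarith)]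
    nlinarith
  refine ⟨?_, ?_⟩
  · show |hh a σ - σ * dh a σ| ≤ 9
    rw [abs_le]; constructor <;> linarith
  · show |dh a σ| ≤ 9
    unfold dh
    rw [abs_div, ← hq, abs_of_pos (by linarith : (0:ℝ) < q), div_le_iff₀ (by linarith)]
    nlinarith

/-- at most three planks meet a given point -/
lemma card_planks (hC : T_CUT) (ν : ℝ) (hν : 0 < ν) (J : ℤ) (ζ : ℝ × ℝ) :
    ((Finset.Icc (-J) J).filter (fun j : ℤ => sc ν (j * ν) ζ ≠ 0)).card ≤ 3 := by
  classical
  by_cases hz : 0 < ζ.1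
  · set x : ℝ := ζ.2 / (ν * ζ.1) with hx
    have hsub : (Finset.Icc (-J) J).filter (fun j : ℤ => sc ν (j * ν) ζ ≠ 0) ⊆
        Finset.Icc ⌈x - 1⌉ ⌊x + 1⌋ := by
      intro j hj
      rw [Finset.mem_filter] at hj
      obtain ⟨-, h2, h3⟩ := (hC.1 ν (j * ν) hν).2.2 ζ hj.2
      have hp : 0 < ν * ζ.1 := by positivity
      have h4 : |x - j| ≤ 1 := by
        rw [show x - j = (ζ.2 - j * ν * ζ.1) / (ν * ζ.1) by
          rw [hx]; field_simp, abs_div, abs_of_pos hp, div_le_one hp]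
        exact h3
      rw [abs_le] at h4
      rw [Finset.mem_Icc, Int.ceil_le, Int.le_floor]
      constructor <;> linarith
    refine (Finset.card_le_card hsub).trans ?_
    rw [Int.card_Icc]
    have h5 : (⌊x + 1⌋ : ℝ) ≤ x + 1 := Int.floor_le _
    have h6 : x - 1 ≤ (⌈x - 1⌉ : ℝ) := Int.le_ceil _
    have h7 : (⌊x + 1⌋ : ℝ) - ⌈x - 1⌉ ≤ 2 := by linarith
    have h8 : ⌊x + 1⌋ - ⌈x - 1⌉ ≤ 2 := by exact_mod_cast h7
    omega
  · have : (Finset.Icc (-J) J).filter (fun j : ℤ => sc ν (j * ν) ζ ≠ 0) = ∅ := by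
      rw [Finset.filter_eq_empty_iff]
      intro j _ hj
      have := ((hC.1 ν (j * ν) hν).2.2 ζ hj).1
      linarith
    rw [this]; simp

theorem lec (hLE : T_LE) (hS : T_SEC1) (hC : T_CUT) (hT : T_TCU) : T_LEC := by
  classical
  obtain ⟨C, hLE⟩ := hLE
  obtain ⟨C2, hS2⟩ := hS.2 2
  refine ⟨Real.toNNReal (10 ^ 16) * (C * (9 + (Real.toNNReal (256 * 7 * max C2 0)) ^ 2)), ?_⟩
  intro a ha s h r y₀ b hr hh hb
  have hr0 : 0 < r := by linarith
  have hsq : 1 ≤ Real.sqrt r := by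
    rw [show (1 : ℝ) = Real.sqrt 1 by simp]
    exact Real.sqrt_le_sqrt hr
  have hsq0 : 0 < Real.sqrt r := by linarith
  have hss : Real.sqrt r * Real.sqrt r = r := Real.mul_self_sqrt hr0.le
  set ν : ℝ := 1 / Real.sqrt r with hν
  have hν0 : 0 < ν := by positivity
  have hν1 : ν ≤ 1 := by rw [hν, div_le_one hsq0]; exact hsq
  have hνr : ν ^ 2 * r = 1 := by
    rw [hν, div_pow, one_pow, sq, hss]; field_simp
  set J : ℤ := ⌈1 / ν⌉ + 1 with hJ
  have hJ1 : 1 / ν + 1 ≤ J := by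
    rw [hJ]; push_cast; linarith [Int.le_ceil (1 / ν)]
  have hJ2 : (J : ℝ) ≤ 1 / ν + 2 := by
    rw [hJ]; push_cast; linarith [Int.ceil_lt_add_one (1 / ν)]
  have hJν : (J : ℝ) * ν ≤ 3 := by
    have : (J : ℝ) * ν ≤ (1 / ν + 2) * ν := mul_le_mul_of_nonneg_right hJ2 hν0.le
    have h2 : (1 / ν + 2) * ν = 1 + 2 * ν := by field_simp
    linarith
  set S : Finset ℤ := Finset.Icc (-J) J with hSdef
  have hSj : ∀ j ∈ S, |(j : ℝ) * ν| ≤ 3 := by
    intro j hj
    rw [hSdef, Finset.mem_Icc] at hj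
    have h1 : |(j : ℝ)| ≤ J := by
      rw [abs_le]
      have h1 : ((-J : ℤ) : ℝ) ≤ j := by exact_mod_cast hj.1
      have h2 : (j : ℝ) ≤ J := by exact_mod_cast hj.2
      push_cast at h1
      exact ⟨h1, h2⟩
    rw [abs_mul, abs_of_pos hν0]
    exact (mul_le_mul_of_nonneg_right h1 hν0.le).trans hJν
  -- the pieces
  let f : ℤ → ℝ × ℝ → ℂ := fun j ζ => e (h * ph a ζ) * sc ν (j * ν) ζ
  have hf : ∀ j, TC (f j) := by
    intro j
    apply hT a ha h _ (hC.1 ν (j * ν) hν0).1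
    intro ζ hζ
    have := ((hC.1 ν (j * ν) hν0).2.2 ζ hζ).1
    linarith
  let χ : ℝ × ℝ → ℂ := fun ζ => ∑ j ∈ S, f j ζ
  have hχ : TC χ := TC.sum S f (fun j _ => hf j)
  let b' : ℝ × ℝ → ℂ := fun ζ => e (s * ph a ζ) * b ζ
  have hb' : TC b' := by
    apply hT a ha s b hb.1
    intro ζ hζ
    have := (hb.2 ζ hζ).1
    linarith
  have hU : U a (s + h) b = Fi (fun ζ => χ ζ * b' ζ) := by
    funext y
    rw [U_add]
    congr 1
    funext ζ
    show e (h * ph a ζ) * (e (s * ph a ζ) * b ζ) =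
      (∑ j ∈ S, e (h * ph a ζ) * sc ν (j * ν) ζ) * (e (s * ph a ζ) * b ζ)
    rw [← Finset.mul_sum]
    by_cases hbz : b ζ = 0
    · rw [hbz]; ring
    · rw [hC.2.1 ν J hν0 hJ1 ζ (hb.2 ζ hbz), mul_one]
  have hUs : U a s b = Fi b' := rfl
  -- pointwise bound
  have hχ3 : ∀ ζ, ‖χ ζ‖ₑ ≤ 3 := by
    intro ζ
    have h1 : χ ζ = ∑ j ∈ S.filter (fun j : ℤ => sc ν (j * ν) ζ ≠ 0), f j ζ := by
      show ∑ j ∈ S, f j ζ = _
      symm
      apply Finset.sum_subset (Finset.filter_subset _ _)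
      intro j hj hj'
      rw [Finset.mem_filter] at hj'
      have : sc ν (j * ν) ζ = 0 := by
        by_contra hne; exact hj' ⟨hj, hne⟩
      show e (h * ph a ζ) * sc ν (j * ν) ζ = 0
      rw [this, mul_zero]
    have h2 : ‖χ ζ‖ ≤ 3 := by
      rw [h1]
      refine (norm_sum_le _ _).trans ?_
      have h3 : ∀ j ∈ S.filter (fun j : ℤ => sc ν (j * ν) ζ ≠ 0), ‖f j ζ‖ ≤ 1 := by
        intro j _
        show ‖e (h * ph a ζ) * sc ν (j * ν) ζ‖ ≤ 1
        rw [norm_mul, norm_e, one_mul]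
        exact (hC.1 ν (j * ν) hν0).2.1 ζ
      refine (Finset.sum_le_sum h3).trans ?_
      rw [Finset.sum_const, nsmul_eq_mul, mul_one]
      exact_mod_cast card_planks hC ν hν0 J ζ
    rw [← ofReal_norm]
    calc ENNReal.ofReal ‖χ ζ‖ ≤ ENNReal.ofReal 3 := ENNReal.ofReal_le_ofReal h2
      _ = 3 := by norm_num
  -- the tail
  have hpiece : ∀ j ∈ S, ∫⁻ z in {z : ℝ × ℝ | 10 * r ≤ ‖z - 0‖}, ‖Fi (f j) z‖ₑ *
      ENNReal.ofReal (((1 + |z.1 - (0 : ℝ × ℝ).1| / (10 * r)) *
        (1 + |z.2 - (0 : ℝ × ℝ).2| / (10 * r))) ^ 4) ≤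
      256 * ENNReal.ofReal (C2 / (ν * r) ^ 2) := by
    intro j hj
    have hg := gr_bound a (j * ν) (hSj j hj)
    set c : ℝ × ℝ := -(h • gr a (j * ν)) with hc
    have hc1 : |c.1| ≤ 9 * r := by
      rw [hc]; simp only [Prod.fst_neg, Prod.smul_fst, smul_eq_mul, abs_neg, abs_mul]
      calc |h| * |(gr a (j * ν)).1| ≤ r * 9 :=
            mul_le_mul hh hg.1 (abs_nonneg _) hr0.le
        _ = 9 * r := by ring
    have hc2 : |c.2| ≤ 9 * r := by
      rw [hc]; simp only [Prod.snd_neg, Prod.smul_snd, smul_eq_mul, abs_neg, abs_mul]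
      calc |h| * |(gr a (j * ν)).2| ≤ r * 9 :=
            mul_le_mul hh hg.2 (abs_nonneg _) hr0.le
        _ = 9 * r := by ring
    have hcn : ‖c‖ ≤ 9 * r := by
      rw [Prod.norm_def]
      exact max_le (by rw [Real.norm_eq_abs]; exact hc1) (by rw [Real.norm_eq_abs]; exact hc2)
    have ht := hS2 a ha ν ⟨hν0, hν1⟩ (j * ν) ?_ h r ?_ ?_
    · calc ∫⁻ z in {z : ℝ × ℝ | 10 * r ≤ ‖z - 0‖}, ‖Fi (f j) z‖ₑ *
            ENNReal.ofReal (((1 + |z.1 - (0 : ℝ × ℝ).1| / (10 * r)) *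
              (1 + |z.2 - (0 : ℝ × ℝ).2| / (10 * r))) ^ 4)
          ≤ ∫⁻ z in {z : ℝ × ℝ | 10 * r ≤ ‖z - 0‖}, 256 * (‖Fi (f j) z‖ₑ *
            ENNReal.ofReal (((1 + |z.1 - c.1| / r) * (1 + |z.2 - c.2| / r)) ^ 4)) := by
            apply lintegral_mono
            intro z
            have key : ∀ u v : ℝ, |v| ≤ 9 * r →
                1 + |u - 0| / (10 * r) ≤ 2 * (1 + |u - v| / r) := by
              intro u v hv
              have h1 : |u - 0| ≤ |u - v| + |v| := by
                have := abs_sub_abs_le_abs_sub u v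
                rw [sub_zero]; linarith
              have h2 : |u - 0| / (10 * r) ≤ (|u - v| + 9 * r) / (10 * r) := by
                gcongr; linarith
              have h3 : (|u - v| + 9 * r) / (10 * r) = |u - v| / r / 10 + 9 / 10 := by
                field_simp
              have h4 : 0 ≤ |u - v| / r := by positivity
              linarith
            have h5 : ((1 + |z.1 - (0 : ℝ × ℝ).1| / (10 * r)) *
                (1 + |z.2 - (0 : ℝ × ℝ).2| / (10 * r))) ^ 4 ≤
                256 * ((1 + |z.1 - c.1| / r) * (1 + |z.2 - c.2| / r)) ^ 4 := by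
              calc ((1 + |z.1 - (0 : ℝ × ℝ).1| / (10 * r)) *
                (1 + |z.2 - (0 : ℝ × ℝ).2| / (10 * r))) ^ 4
                  ≤ ((2 * (1 + |z.1 - c.1| / r)) * (2 * (1 + |z.2 - c.2| / r))) ^ 4 := by
                    apply pow_le_pow_left₀ (by positivity)
                    exact mul_le_mul (key _ _ hc1) (key _ _ hc2) (by positivity) (by positivity)
                _ = _ := by ring
            calc ‖Fi (f j) z‖ₑ * ENNReal.ofReal (((1 + |z.1 - (0 : ℝ × ℝ).1| / (10 * r)) *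
                (1 + |z.2 - (0 : ℝ × ℝ).2| / (10 * r))) ^ 4)
                ≤ ‖Fi (f j) z‖ₑ * ENNReal.ofReal (256 *
                  ((1 + |z.1 - c.1| / r) * (1 + |z.2 - c.2| / r)) ^ 4) := by gcongr
              _ = _ := by
                rw [ENNReal.ofReal_mul (by norm_num), show ENNReal.ofReal 256 = 256 by norm_num]
                ring
        _ ≤ ∫⁻ z in {z : ℝ × ℝ | r ≤ ‖z - c‖}, 256 * (‖Fi (f j) z‖ₑ *
            ENNReal.ofReal (((1 + |z.1 - c.1| / r) * (1 + |z.2 - c.2| / r)) ^ 4)) := by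
            apply lintegral_mono_set
            intro z hz
            simp only [mem_ofPred_eq, sub_zero] at hz ⊢
            have := norm_sub_norm_le z c
            linarith
        _ = 256 * tailI r c (f j) := by
            rw [lintegral_const_mul' _ _ (by norm_num)]
            rfl
        _ ≤ 256 * ENNReal.ofReal (C2 / (ν * r) ^ 2) := by gcongr
    · have := hSj j hj
      rw [abs_le] at this
      constructor <;> linarith
    · calc |h| * ν ^ 2 ≤ r * ν ^ 2 := by gcongr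
        _ = 1 := by rw [mul_comm]; exact hνr
    · rw [hν, one_div_one_div]
      calc Real.sqrt r ≤ Real.sqrt r * Real.sqrt r := le_mul_of_one_le_left hsq0.le hsq
        _ = r := hss
  have htail : tailI (10 * r) 0 χ ≤ ENNReal.ofReal (256 * 7 * max C2 0) := by
    have h1 : tailI (10 * r) 0 χ ≤ ∑ j ∈ S,
        ∫⁻ z in {z : ℝ × ℝ | 10 * r ≤ ‖z - 0‖}, ‖Fi (f j) z‖ₑ *
      ENNReal.ofReal (((1 + |z.1 - (0 : ℝ × ℝ).1| / (10 * r)) *
        (1 + |z.2 - (0 : ℝ × ℝ).2| / (10 * r))) ^ 4) := by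
      unfold tailI
      have hmeas : ∀ j ∈ S, Measurable (fun z : ℝ × ℝ => ‖Fi (f j) z‖ₑ *
        ENNReal.ofReal (((1 + |z.1 - (0 : ℝ × ℝ).1| / (10 * r)) *
          (1 + |z.2 - (0 : ℝ × ℝ).2| / (10 * r))) ^ 4)) := by
        intro j _
        have hm : Measurable (Fi (f j)) := by
          unfold Fi
          have : StronglyMeasurable (fun y : ℝ × ℝ =>
              ∫ ζ : ℝ × ℝ, e (y.1 * ζ.1 + y.2 * ζ.2) * f j ζ) := by
            apply StronglyMeasurable.integral_prod_right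
              (f := fun (y : ℝ × ℝ) (ζ : ℝ × ℝ) => e (y.1 * ζ.1 + y.2 * ζ.2) * f j ζ)
            apply Continuous.stronglyMeasurable
            apply Continuous.mul
            · exact continuous_e.comp (by fun_prop)
            · exact (hf j).1.continuous.comp continuous_snd
          exact this.measurable
        fun_prop
      rw [← lintegral_finsetSum S hmeas]
      apply lintegral_mono
      intro z
      show ‖Fi χ z‖ₑ * _ ≤ ∑ j ∈ S, ‖Fi (f j) z‖ₑ * _
      rw [← Finset.sum_mul]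
      gcongr
      have : Fi χ z = ∑ j ∈ S, Fi (f j) z := Fi_sum S f (fun j _ => (hf j).integrable) z
      rw [this]
      exact enorm_sum_le _ _
    refine h1.trans ((Finset.sum_le_sum hpiece).trans ?_)
    rw [Finset.sum_const, nsmul_eq_mul]
    have hcard : (S.card : ℝ) ≤ 7 / ν := by
      rw [hSdef, Int.card_Icc]
      have hJ0 : 0 ≤ J := by
        have : (0 : ℝ) ≤ J := by
          have : 0 < 1 / ν := by positivity
          linarith
        exact_mod_cast this
      have h2 : (((J + 1 - -J).toNat : ℤ) : ℝ) = 2 * J + 1 := by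
        rw [Int.toNat_of_nonneg (by omega)]; push_cast; ring
      have h3 : (((J + 1 - -J).toNat : ℕ) : ℝ) = 2 * J + 1 := by exact_mod_cast h2
      rw [h3]
      have h4 : 1 ≤ 1 / ν := by rw [le_div_iff₀ hν0]; linarith
      have h5 : 7 / ν = 7 * (1 / ν) := by ring
      rw [h5]
      linarith
    have hcard' : (S.card : ℝ≥0∞) ≤ ENNReal.ofReal (7 / ν) := by
      rw [← ENNReal.ofReal_natCast]
      exact ENNReal.ofReal_le_ofReal hcard
    calc (S.card : ℝ≥0∞) * (256 * ENNReal.ofReal (C2 / (ν * r) ^ 2))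
        ≤ ENNReal.ofReal (7 / ν) * (ENNReal.ofReal 256 *
            ENNReal.ofReal (max C2 0 / (ν * r) ^ 2)) := by
          rw [show ENNReal.ofReal 256 = 256 by norm_num]
          gcongr
          exact le_max_left _ _
      _ = ENNReal.ofReal (7 / ν * (256 * (max C2 0 / (ν * r) ^ 2))) := by
          rw [← ENNReal.ofReal_mul (by norm_num), ← ENNReal.ofReal_mul (by positivity)]
      _ ≤ ENNReal.ofReal (256 * 7 * max C2 0) := by
          apply ENNReal.ofReal_le_ofReal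
          have hM : 0 ≤ max C2 0 := le_max_right _ _
          have h6 : 7 / ν * (256 * (max C2 0 / (ν * r) ^ 2)) =
              256 * 7 * max C2 0 * (1 / (ν * (ν * r) ^ 2)) := by
            field_simp
          rw [h6]
          have h7 : 1 ≤ ν * (ν * r) ^ 2 := by
            have h8 : ν * (ν * r) ^ 2 = (ν ^ 2 * r) * (ν * r) := by ring
            rw [h8, hνr, one_mul]
            have h9 : ν * r = Real.sqrt r := by
              rw [hν]; field_simp; rw [sq, hss]
            rw [h9]; exact hsq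
          have h10 : 1 / (ν * (ν * r) ^ 2) ≤ 1 := by
            rw [div_le_one (by linarith)]; exact h7
          have h11 : 0 ≤ 256 * 7 * max C2 0 := by positivity
          nlinarith
  -- conclusion
  have key := hLE Unit (fun _ => χ) (10 * r) 0 y₀ 9 ((ENNReal.ofReal (256 * 7 * max C2 0)) ^ 2) b'
    (by linarith) (fun _ => hχ) hb' ?_ ?_
  · simp only [Finset.univ_unique, Finset.sum_singleton, sub_zero] at key
    rw [hU, hUs]
    calc En r y₀ (Fi fun ζ => χ ζ * b' ζ)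
        ≤ En (10 * r) y₀ (Fi fun ζ => χ ζ * b' ζ) := En_mono' hr0 (by linarith) _ _
      _ ≤ C * (9 + (ENNReal.ofReal (256 * 7 * max C2 0)) ^ 2) * En (10 * r) y₀ (Fi b') := key
      _ ≤ C * (9 + (ENNReal.ofReal (256 * 7 * max C2 0)) ^ 2) *
          (ENNReal.ofReal (10 ^ 16) * En r y₀ (Fi b')) := by
          gcongr
          exact En_scale' hr0 (by norm_num) (by linarith) le_rfl _ _
      _ = _ := by
          push_cast
          simp only [ENNReal.ofReal]
          ring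
  · intro ζ
    simp only [Finset.univ_unique, Finset.sum_const, Finset.card_singleton, one_smul]
    calc ‖χ ζ‖ₑ ^ 2 ≤ 3 ^ 2 := by gcongr; exact hχ3 ζ
      _ = 9 := by norm_num
  · simp only [Finset.univ_unique, Finset.sum_const, Finset.card_singleton, one_smul]
    gcongr

end Pool.Agent.H57.LS
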